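import Pool.Agent.N542.PQ.TypeII
import Pool.Agent.H895R3.NK.E4

set_option autoImplicit false
set_option maxHeartbeats 4000000

/-! Power saving for sums over primes with a smooth phase. -/

namespace Pool.Agent.N542.PQ

open Finset
open Pool.Agent.H469R2.NK (e norm_e e_add conj_e norm_sum_neg e_zero)
open Pool.Agent.H373R2.T3 (bilin sum_inv_dist harm)
open Pool.Agent.H373R2.T7 (vaughan_gen)
open Pool.Agent.H895R3.NK (ev_log' fourth)

theorem prime_pd (Q d : ℕ) (hQd : 8 * d + 1 ≤ Q) (c₁ c₂ δ : ℝ) (hc₁ : 0 < c₁) (hc₂ : c₁ ≤ c₂)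
    (hδ : 0 < δ) (hδ1 : δ ≤ 1) :
    ∃ ρ : ℝ, 0 < ρ ∧ ρ ≤ 1 / 8 ∧ ∃ N₀ : ℕ, ∀ N N' : ℕ, N₀ ≤ N → N ≤ N' → N' ≤ 2 * N →
      ∀ (Φ σ τ : ℝ) (G : ℕ → ℝ → ℝ), (σ = 1 ∨ σ = -1) → (τ = 1 ∨ τ = -1) →
      (N : ℝ) ^ δ ≤ Φ → Φ ≤ (N : ℝ) ^ d → PD Q N Φ c₁ c₂ σ τ G →
      ‖∑ n ∈ Ioc N N', ((ArithmeticFunction.vonMangoldt n : ℝ) : ℂ) * e (G 0 (n : ℝ))‖ ≤
        (N : ℝ) ^ (1 - ρ) := by
  have hc3 : c₁ / (2 * 3 ^ (Q + 1)) ≤ c₂ := by
    refine le_trans ?_ hc₂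
    apply div_le_self hc₁.le
    have : (1 : ℝ) ≤ 3 ^ (Q + 1) := one_le_pow₀ (by norm_num)
    linarith
  obtain ⟨η₀, hη₀0, hη₀1, C₁, hC₁, hblk⟩ := vdc_all Q (by omega) (c₁ / (2 * 3 ^ (Q + 1))) c₂
    (δ / 4) (by positivity) hc3 (by positivity) (by linarith)
  have hblk' : Blk Q (c₁ / (2 * 3 ^ (Q + 1))) c₂ (δ / 4) η₀ C₁ := hblk
  set η : ℝ := min η₀ δ with hη
  have hη0 : 0 < η := lt_min hη₀0 hδ
  have hηη : η ≤ η₀ := min_le_left _ _
  have hηδ : η ≤ δ := min_le_right _ _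
  have hη1 : η ≤ 1 := hηδ.trans hδ1
  set C : ℝ := 40 * C₁ with hC
  have hC1 : 1 ≤ C := by linarith
  set B : ℝ := (8 * √C + 3 * C) * 243 with hB
  obtain ⟨N₁, hN₁⟩ := ev_log' (η / 32) (by positivity) 6 B
  refine ⟨η / 16, by positivity, by linarith, N₁ + 10 ^ 4, ?_⟩
  intro N N' hN hNN' hN' Φ σ τ G hσ hτ hΦ1 hΦ2 hPD
  obtain ⟨h12, hBl, hl1, hLgl, hpow⟩ := hN₁ N (by omega)
  have hNr : (10 ^ 4 : ℝ) ≤ N := by exact_mod_cast (by omega : 10 ^ 4 ≤ N)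
  have hN0 : (0 : ℝ) < N := by linarith
  have hN1 : (1 : ℝ) ≤ N := by linarith
  have hΦ0 : 0 < Φ := lt_of_lt_of_le (by positivity) hΦ1
  set U := Nat.sqrt (Nat.sqrt N) with hU
  obtain ⟨hU1, hU2, hU3⟩ := fourth N U hU
  have hU10 : 9 ≤ U := by
    by_contra hc
    have : U + 1 ≤ 9 := by omega
    have h4 : (U + 1) ^ 4 ≤ 9 ^ 4 := Nat.pow_le_pow_left this 4
    omega
  have hlog4N : 0 ≤ Real.log (4 * (N : ℝ)) := Real.log_nonneg (by linarith)
  set Lg : ℝ := 1 + Real.log (4 * N) with hLg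
  have hLg1 : 1 ≤ Lg := by linarith
  set P : ℝ := (N : ℝ) ^ (-(η / 4)) with hP
  have hP0 : 0 < P := Real.rpow_pos_of_pos hN0 _
  have hUr : (9 : ℝ) ≤ U := by exact_mod_cast hU10
  have hsmall : ∀ X : ℝ, 1 ≤ X → (N : ℝ) ≤ (4 * X) ^ 4 → ∀ ρ : ℝ, η ≤ ρ → X ^ (-ρ) ≤ 4 * P := by
    intro X hX hNX ρ hρ
    have h1 : X ^ (-ρ) ≤ X ^ (-η) := Real.rpow_le_rpow_of_exponent_le hX (by linarith)
    refine h1.trans ?_
    have h2 : (N : ℝ) ^ ((1 : ℝ) / 4) ≤ 4 * X := by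
      have h3 : (N : ℝ) ^ ((1 : ℝ) / 4) ≤ ((4 * X) ^ 4) ^ ((1 : ℝ) / 4) :=
        Real.rpow_le_rpow hN0.le hNX (by norm_num)
      refine h3.trans (le_of_eq ?_)
      rw [← Real.rpow_natCast, ← Real.rpow_mul (by positivity)]
      norm_num
    have h4 : (4 * X) ^ (-η) ≤ ((N : ℝ) ^ ((1 : ℝ) / 4)) ^ (-η) :=
      Real.rpow_le_rpow_of_nonpos (by positivity) h2 (by linarith)
    have h5 : ((N : ℝ) ^ ((1 : ℝ) / 4)) ^ (-η) = P := by
      rw [hP, ← Real.rpow_mul hN0.le]; congr 1; ring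
    rw [h5, Real.mul_rpow (by norm_num) (by linarith)] at h4
    have h6 : (1 : ℝ) / 4 ≤ (4 : ℝ) ^ (-η) := by
      calc (1 : ℝ) / 4 = (4 : ℝ) ^ (-1 : ℝ) := by rw [Real.rpow_neg_one]; norm_num
        _ ≤ _ := Real.rpow_le_rpow_of_exponent_le (by norm_num) (by linarith)
    have h7 : 0 < X ^ (-η) := Real.rpow_pos_of_pos (by linarith) _
    nlinarith
  -- scales: a number at most `2 N` is at most `N ^ 2`
  have hscale : ∀ X : ℝ, 0 ≤ X → X ≤ 2 * N → X ^ (δ / 4) ≤ (N : ℝ) ^ (δ / 2) := by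
    intro X hX hX2
    calc X ^ (δ / 4) ≤ ((N : ℝ) ^ (2 : ℝ)) ^ (δ / 4) := by
          apply Real.rpow_le_rpow hX _ (by positivity)
          rw [Real.rpow_two]
          nlinarith
      _ = _ := by rw [← Real.rpow_mul hN0.le]; congr 1; ring
  set w : ℝ := (N : ℝ) ^ (-(δ / 2)) with hw
  have hw0 : 0 < w := by positivity
  have hwP : w ≤ P := Real.rpow_le_rpow_of_exponent_le hN1 (by linarith)
  have hΦw : (N : ℝ) ^ (δ / 2) ≤ Φ * w := by
    calc (N : ℝ) ^ (δ / 2) = (N : ℝ) ^ δ * w := by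
          rw [hw, ← Real.rpow_add hN0]; congr 1; ring
      _ ≤ _ := by gcongr
  have hΦ2' : (N : ℝ) ^ (δ / 2) ≤ Φ :=
    (Real.rpow_le_rpow_of_exponent_le hN1 (by linarith)).trans hΦ1
  set S : ℝ := C * ((N : ℝ) ^ 2 * P) with hS
  have hS0 : 0 ≤ S := by positivity
  set Y : ℕ → ℝ := fun m => C * ((N : ℝ) * P) * (1 / (m : ℝ)) with hY
  have hY0 : ∀ m, 0 ≤ Y m := fun m => by simp only [hY]; positivity
  have hUsq : U * U ≤ N := hU1.trans (Nat.sqrt_le_self N)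
  have main := vaughan_gen (fun n => e (G 0 (n : ℝ))) N N' U (by omega) hNN' hN' (by omega)
    hUsq Y (Real.sqrt S) (Real.sqrt_nonneg _) hY0 ?_ ?_
  · refine main.trans ?_
    have hsumY : ∑ m ∈ Icc 1 (U * U), Y m ≤ C * ((N : ℝ) * P) * Lg := by
      simp only [hY]
      rw [← mul_sum]
      apply mul_le_mul_of_nonneg_left _ (by positivity)
      refine (harm (U * U)).trans ?_
      have : Real.log (((U * U : ℕ) : ℝ) + 1) ≤ Real.log (4 * N) := by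
        apply Real.log_le_log (by positivity)
        have h1 : ((U * U : ℕ) : ℝ) ≤ N := by exact_mod_cast hUsq
        linarith
      linarith
    set R : ℝ := (N : ℝ) ^ (1 - η / 8) with hR
    have hR0 : 0 < R := by positivity
    have hR2 : R ^ 2 = (N : ℝ) ^ 2 * P := by
      rw [hR, hP, ← Real.rpow_natCast, ← Real.rpow_natCast, ← Real.rpow_mul hN0.le,
        ← Real.rpow_add hN0]
      congr 1
      push_cast
      ring
    have hNP : N * P ≤ R := by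
      rw [hR, hP]
      nth_rewrite 1 [← Real.rpow_one (N : ℝ)]
      rw [← Real.rpow_add hN0]
      exact Real.rpow_le_rpow_of_exponent_le hN1 (by linarith)
    have hsq : Real.sqrt S = √C * R := by
      rw [hS, ← hR2, Real.sqrt_mul (by positivity), Real.sqrt_sq hR0.le]
    have hLg5 : Lg ^ 2 ≤ Lg ^ 5 := pow_le_pow_right₀ hLg1 (by norm_num)
    have hl0 : 0 ≤ Real.log (N : ℝ) := by linarith
    calc 8 * Lg ^ 5 * Real.sqrt S + 3 * Lg * ∑ m ∈ Icc 1 (U * U), Y m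
        ≤ 8 * Lg ^ 5 * (√C * R) + 3 * Lg * (C * R * Lg) := by
          rw [hsq]
          have h1 : ∑ m ∈ Icc 1 (U * U), Y m ≤ C * R * Lg := hsumY.trans (by gcongr)
          gcongr
      _ = 8 * √C * R * Lg ^ 5 + 3 * C * R * Lg ^ 2 := by ring
      _ ≤ 8 * √C * R * Lg ^ 5 + 3 * C * R * Lg ^ 5 := by gcongr
      _ = (8 * √C + 3 * C) * Lg ^ 5 * R := by ring
      _ ≤ (8 * √C + 3 * C) * (3 * Real.log N) ^ 5 * R := by gcongr
      _ = B * Real.log N ^ 5 * R := by rw [hB]; ring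
      _ ≤ Real.log N * Real.log N ^ 5 * R := by gcongr
      _ = Real.log N ^ 6 * R := by ring
      _ ≤ (N : ℝ) ^ (η / 32) * R := by gcongr
      _ = (N : ℝ) ^ (η / 32 + (1 - η / 8)) := by rw [hR, ← Real.rpow_add hN0]
      _ ≤ _ := Real.rpow_le_rpow_of_exponent_le hN1 (by linarith)
  · -- type I
    intro m hm b hb
    rw [mem_Icc] at hm
    have hm0 : 0 < m := by omega
    have hmr : (1 : ℝ) ≤ m := by exact_mod_cast hm.1
    have hmN : m ≤ N := hm.2.trans hUsq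
    set a := N / m with ha
    have haN0 : a ≤ N := Nat.div_le_self _ _
    have hb2 : b ≤ 2 * a + 1 := by
      have h1 : N' / m ≤ 2 * N / m := Nat.div_le_div_right hN'
      have h2 : 2 * N / m ≤ 2 * a + 1 := by
        have h3 : N < (a + 1) * m := by
          have := Nat.div_add_mod N m
          have := Nat.mod_lt N hm0
          nlinarith
        have h4 : 2 * N / m < 2 * a + 2 := by
          rw [Nat.div_lt_iff_lt_mul hm0]; nlinarith
        omega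
      omega
    have haN : Nat.sqrt N < a + 1 := by
      have h3 : N < (a + 1) * m := by
        have := Nat.div_add_mod N m
        have := Nat.mod_lt N hm0
        nlinarith
      by_contra hc
      rw [not_lt] at hc
      have h4 : (a + 1) * m ≤ Nat.sqrt N * Nat.sqrt N := Nat.mul_le_mul hc (hm.2.trans hU1)
      omega
    have haN2 : N ≤ (a + 1) * (a + 1) := by
      have h5 : N < (Nat.sqrt N + 1) * (Nat.sqrt N + 1) := Nat.lt_succ_sqrt _
      have : (Nat.sqrt N + 1) * (Nat.sqrt N + 1) ≤ (a + 1) * (a + 1) := Nat.mul_le_mul haN haN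
      omega
    have ha1 : (1 : ℝ) ≤ ((a + 1 : ℕ) : ℝ) := by exact_mod_cast (by omega : 1 ≤ a + 1)
    rcases Nat.lt_or_ge a b with hab | hab
    swap
    · rw [Ioc_eq_empty (by omega), sum_empty, norm_zero]
      exact hY0 m
    set K : ℕ := b - a with hK
    have hKa : K ≤ a + 1 := by omega
    have hKb : ((a + 1 : ℕ) : ℝ) + (K : ℝ) = b + 1 := by
      rw [hK, Nat.cast_sub hab.le]
      push_cast
      ring
    have hmb : m * b ≤ N' := by
      rw [mul_comm]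
      exact (Nat.le_div_iff_mul_le hm0).mp hb
    have hNa : N < m * (a + 1) := by
      have := (Nat.div_lt_iff_lt_mul hm0).mp (Nat.lt_succ_self a)
      rwa [mul_comm] at this
    have hPh := hyI hPD hc₁ hΦ0 ((a + 1 : ℕ) : ℝ) ((a + 1 : ℕ) : ℝ) (((a + 1 : ℕ) : ℝ) + K) m
      (by linarith) le_rfl (by
        have : (K : ℝ) ≤ ((a + 1 : ℕ) : ℝ) := by exact_mod_cast hKa
        linarith) (by exact_mod_cast hNa.le) (by
        rw [hKb]
        have h1 : m * (b + 1) ≤ 4 * N := by nlinarith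
        exact_mod_cast h1) hc₂
    have hcond : Φ ≤ ((a + 1 : ℕ) : ℝ) ^ Q := by
      have h2 : (N : ℝ) ≤ ((a + 1 : ℕ) : ℝ) ^ 2 := by
        have : (N : ℝ) ≤ (((a + 1) * (a + 1) : ℕ) : ℝ) := by exact_mod_cast haN2
        rw [sq]; push_cast at this ⊢; exact this
      calc Φ ≤ (N : ℝ) ^ d := hΦ2
        _ ≤ (((a + 1 : ℕ) : ℝ) ^ 2) ^ d := by gcongr
        _ = ((a + 1 : ℕ) : ℝ) ^ (2 * d) := by rw [← pow_mul]
        _ ≤ _ := pow_le_pow_right₀ ha1 (by omega)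
    have hlow : ((a + 1 : ℕ) : ℝ) ^ (δ / 4) ≤ Φ := by
      refine (hscale _ (by positivity) ?_).trans hΦ2'
      have : ((a + 1 : ℕ) : ℝ) ≤ ((N + 1 : ℕ) : ℝ) := by exact_mod_cast (by omega : a + 1 ≤ N + 1)
      push_cast at this ⊢
      linarith
    have h6 := hblk (a + 1) K ((a + 1 : ℕ) : ℝ) Φ σ _ (by omega) hKa hlow hcond hσ hPh
    have hE : ∑ l ∈ Ioc a b, e (G 0 ((m * l : ℕ) : ℝ)) = ∑ n ∈ range K,
        e ((fun j x => ((m : ℝ) ^ j * G j (m * x)) : ℕ → ℝ → ℝ) 0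
          (((a + 1 : ℕ) : ℝ) + n)) := by
      have e2 : Ioc a b = Ico (a + 1) (b + 1) := by
        ext x; simp only [mem_Ioc, mem_Ico]; omega
      rw [e2, Finset.sum_Ico_eq_sum_range, show b + 1 - (a + 1) = K by omega]
      refine sum_congr rfl fun n _ => ?_
      simp only [pow_zero, one_mul]
      push_cast
      rfl
    rw [hE]
    refine h6.trans ?_
    simp only [hY]
    have ha2 : ((a + 1 : ℕ) : ℝ) ≤ 2 * (N / m) := by
      have h7 : ((a : ℕ) : ℝ) ≤ (N : ℝ) / m := Nat.cast_div_le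
      have h8 : (1 : ℝ) ≤ (N : ℝ) / m := by
        rw [le_div_iff₀ (by linarith)]; rw [one_mul]; exact_mod_cast hmN
      push_cast; linarith
    have h10 : ((a + 1 : ℕ) : ℝ) ^ (1 - η₀) ≤ 8 * ((N : ℝ) * P * (1 / m)) := by
      have e1 : ((a + 1 : ℕ) : ℝ) ^ (1 - η₀) = ((a + 1 : ℕ) : ℝ) * ((a + 1 : ℕ) : ℝ) ^ (-η₀) := by
        rw [sub_eq_add_neg, Real.rpow_add (by linarith), Real.rpow_one]
      rw [e1]
      have h11 := hsmall ((a + 1 : ℕ) : ℝ) ha1 (by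
        have h12 : (N : ℝ) ≤ ((a + 1 : ℕ) : ℝ) ^ 2 := by
          have : (N : ℝ) ≤ (((a + 1) * (a + 1) : ℕ) : ℝ) := by exact_mod_cast haN2
          rw [sq]; push_cast at this ⊢; exact this
        calc (N : ℝ) ≤ ((a + 1 : ℕ) : ℝ) ^ 2 := h12
          _ ≤ (4 * ((a + 1 : ℕ) : ℝ)) ^ 2 := by gcongr; linarith
          _ ≤ (4 * ((a + 1 : ℕ) : ℝ)) ^ 4 := pow_le_pow_right₀ (by linarith) (by norm_num)) η₀ hηη
      calc ((a + 1 : ℕ) : ℝ) * ((a + 1 : ℕ) : ℝ) ^ (-η₀) ≤ (2 * (N / m)) * (4 * P) := by gcongr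
        _ = _ := by ring
    have hq2 : 0 ≤ (N : ℝ) * P * (1 / m) := by positivity
    calc C₁ * ((a + 1 : ℕ) : ℝ) ^ (1 - η₀) ≤ C₁ * (8 * ((N : ℝ) * P * (1 / m))) := by gcongr
      _ ≤ C * ((N : ℝ) * P * (1 / m)) := by
          have hc8 : 8 * C₁ ≤ C := by linarith
          have := mul_le_mul_of_nonneg_right hc8 hq2
          linarith
      _ = _ := by ring
  · -- type II
    intro a b A₂ B₂ hA hB2 M L hM hL hUM hUL hML hsa hsb
    have hMr : (1 : ℝ) ≤ M := by exact_mod_cast hM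
    have hLr : (1 : ℝ) ≤ L := by exact_mod_cast hL
    have hNM : N < (2 * M) ^ 4 := lt_of_lt_of_le hU3 (Nat.pow_le_pow_left (by omega) 4)
    have hNL : N < (2 * L) ^ 4 := lt_of_lt_of_le hU3 (Nat.pow_le_pow_left (by omega) 4)
    have hNMr : (N : ℝ) ≤ (2 * M) ^ 4 := by exact_mod_cast hNM.le
    have hNLr : (N : ℝ) ≤ (2 * L) ^ 4 := by exact_mod_cast hNL.le
    have hM5 : (5 : ℝ) ≤ M := by exact_mod_cast (by omega : 5 ≤ M)
    have hcond : Φ ≤ (M : ℝ) ^ Q := by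
      have h1 : (N : ℝ) ≤ (M : ℝ) ^ 8 := by
        calc (N : ℝ) ≤ (2 * M) ^ 4 := hNMr
          _ = 16 * (M : ℝ) ^ 4 := by ring
          _ ≤ (M : ℝ) ^ 4 * (M : ℝ) ^ 4 := by
            apply mul_le_mul_of_nonneg_right _ (by positivity)
            calc (16 : ℝ) ≤ 5 ^ 4 := by norm_num
              _ ≤ _ := by gcongr
          _ = _ := by ring
      calc Φ ≤ (N : ℝ) ^ d := hΦ2
        _ ≤ ((M : ℝ) ^ 8) ^ d := by gcongr
        _ = (M : ℝ) ^ (8 * d) := by rw [← pow_mul]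
        _ ≤ _ := pow_le_pow_right₀ hMr (by omega)
    have hMLr : (M : ℝ) * L ≤ 2 * N := by
      have : ((M * L : ℕ) : ℝ) ≤ ((2 * N : ℕ) : ℝ) := by exact_mod_cast hML.trans hN'
      push_cast at this; exact this
    have hM2N : (M : ℝ) ≤ 2 * N := (le_mul_of_one_le_right (by positivity) hLr).trans hMLr
    have hfar : (M : ℝ) ^ (δ / 4) ≤ Φ * w := (hscale M (by positivity) hM2N).trans hΦw
    have h := typeII hPD (by omega) hτ hc₁ hc₂ hΦ0 hC₁ hblk' N' M L hN' hM hL w hw0.le hcond hfar a b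
    refine h.trans ?_
    rw [Real.sq_sqrt hS0]
    have hML2 : ((M : ℝ) * L) ^ 2 ≤ 4 * (N : ℝ) ^ 2 := by
      calc ((M : ℝ) * L) ^ 2 ≤ (2 * N) ^ 2 := by gcongr
        _ = _ := by ring
    have hLP : (L : ℝ) ^ (-1 : ℝ) ≤ 4 * P := hsmall L hLr (hNLr.trans (by gcongr; norm_num)) 1 hη1
    have hMP : (M : ℝ) ^ (-η₀) ≤ 4 * P := hsmall M hMr (hNMr.trans (by gcongr; norm_num)) η₀ hηη
    have t1 : (M : ℝ) * L * M ≤ 16 * ((N : ℝ) ^ 2 * P) := by
      have e1 : (M : ℝ) * L * M = ((M : ℝ) * L) ^ 2 * (L : ℝ) ^ (-1 : ℝ) := by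
        rw [Real.rpow_neg_one]; field_simp
      rw [e1]
      calc ((M : ℝ) * L) ^ 2 * (L : ℝ) ^ (-1 : ℝ) ≤ (4 * (N : ℝ) ^ 2) * (4 * P) := by gcongr
        _ = _ := by ring
    have t2 : (M : ℝ) * L * (M * (2 * (L * w))) ≤ 8 * ((N : ℝ) ^ 2 * P) := by
      calc (M : ℝ) * L * (M * (2 * (L * w))) = 2 * ((M : ℝ) * L) ^ 2 * w := by ring
        _ ≤ 2 * (4 * (N : ℝ) ^ 2) * P := by gcongr
        _ = _ := by ring
    have t3 : (M : ℝ) * L * (L * (M : ℝ) ^ (1 - η₀)) ≤ 16 * ((N : ℝ) ^ 2 * P) := by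
      have e1 : (M : ℝ) ^ (1 - η₀) = M * (M : ℝ) ^ (-η₀) := by
        rw [sub_eq_add_neg, Real.rpow_add (by linarith), Real.rpow_one]
      rw [e1]
      calc (M : ℝ) * L * (L * (M * (M : ℝ) ^ (-η₀))) = ((M : ℝ) * L) ^ 2 * (M : ℝ) ^ (-η₀) := by
            ring
        _ ≤ (4 * (N : ℝ) ^ 2) * (4 * P) := by gcongr
        _ = _ := by ring
    have hq1 : 0 ≤ (N : ℝ) ^ 2 * P := by positivity
    set Tt : ℝ := M * (2 * (L * w) + 1) + L * (C₁ * (M : ℝ) ^ (1 - η₀)) with hTt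
    have hT0 : 0 ≤ Tt := by positivity
    have hMLT : (M : ℝ) * L * Tt ≤ S := by
      have e1 : (M : ℝ) * L * Tt = (M : ℝ) * L * (M * (2 * (L * w))) + (M : ℝ) * L * M +
          C₁ * ((M : ℝ) * L * (L * (M : ℝ) ^ (1 - η₀))) := by rw [hTt]; ring
      rw [e1, hS]
      have t3' := mul_le_mul_of_nonneg_left t3 (show 0 ≤ C₁ by linarith)
      have hc1 : 24 + 16 * C₁ ≤ C := by linarith
      have u1 := mul_le_mul_of_nonneg_right hc1 hq1
      linarith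
    calc (∑ m ∈ Ioc M (2 * M), ‖a m‖ ^ 2) * ((∑ l ∈ Ioc L (2 * L), ‖b l‖ ^ 2) * Tt)
        ≤ (A₂ * M) * ((B₂ * L) * Tt) := by
          apply mul_le_mul hsa _ _ (by positivity)
          · exact mul_le_mul_of_nonneg_right hsb hT0
          · exact mul_nonneg (sum_nonneg fun _ _ => by positivity) hT0
      _ = A₂ * B₂ * ((M : ℝ) * L * Tt) := by ring
      _ ≤ A₂ * B₂ * S := mul_le_mul_of_nonneg_left hMLT (by positivity)

end Pool.Agent.N542.PQ
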