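import Pool.Agent.N542.PQ.Comb
import Pool.Agent.N542.PQ.PrimePD
import Pool.Agent.TH915.PW.PrimeSum
import Pool.Agent.W147.PS.Scale

set_option autoImplicit false
set_option maxHeartbeats 4000000

/-! Exponential sums over the primes of a residue class: combinations of smoothly varying functions
and polynomials, uniformly. -/

namespace Pool.Agent.N542.PQ

open Finset Filter Topology
open Pool.Agent.H469R2.NK (e norm_e e_add)
open Pool.Agent.N542.PP (SV)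
open Pool.Agent.TH915.PW (prime_bound abel_bound class_bound)
open Pool.Agent.W147.PS (ev_pow)

/-- from the von Mangoldt weight to the primes of a class -/
lemma primes_class_of_lambda (g : ℕ → ℂ) (hg : ∀ n, ‖g n‖ ≤ 1) (m₀ m₁ : ℕ) (h4 : 4 ≤ m₀)
    (h01 : m₀ < m₁) (d b : ℕ) (hd : 0 < d) (E B : ℝ) (hEB : 0 ≤ E + B)
    (hB : ∀ t : ℕ, 1 ≤ t → t ≤ m₁ → 2 * √(t : ℝ) * Real.log t ≤ B)
    (h : ∀ t : ℕ, m₀ ≤ t → t ≤ m₁ → ∀ k : ℕ, k < d →
      ‖∑ n ∈ Ioc m₀ t, ((ArithmeticFunction.vonMangoldt n : ℝ) : ℂ) *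
        (g n * e ((k : ℝ) / d * n))‖ ≤ E) :
    ‖∑ p ∈ (Ioc m₀ m₁).filter (fun p => p.Prime ∧ p ≡ b [MOD d]), g p‖ ≤ E + B := by
  set G : ℕ → ℂ := fun n => (((if n.Prime then Real.log n else 0 : ℝ)) : ℂ) * g n with hG
  have hcls : ∀ t : ℕ, m₀ ≤ t → t ≤ m₁ →
      ‖∑ n ∈ (Ioc m₀ t).filter (fun n => n ≡ b [MOD d]), G n‖ ≤ E + B := by
    intro t ht1 ht2
    have ht0 : 1 ≤ t := by omega
    apply class_bound (Ioc m₀ t) G d hd b (E + B)
    intro k hk
    have hk' : k < d := by simpa using hk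
    have h2 := prime_bound m₀ t ht0 (fun n => g n * e ((k : ℝ) / d * n))
      (fun n => by rw [norm_mul, norm_e, mul_one]; exact hg n) _ (h t ht1 ht2 k hk')
    have h3 : ∑ n ∈ Ioc m₀ t, G n * e ((k : ℝ) / d * n) =
        ∑ n ∈ Ioc m₀ t, (((if n.Prime then Real.log n else 0 : ℝ)) : ℂ) *
          (g n * e ((k : ℝ) / d * n)) := by
      refine sum_congr rfl fun n _ => ?_
      rw [hG]
      simp only
      rw [mul_assoc]
    rw [h3]
    refine h2.trans ?_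
    linarith [hB t ht0 ht2]
  set A : ℕ → ℂ := fun n => if n ≡ b [MOD d] then G n else 0 with hA
  set w : ℕ → ℝ := fun n => (Real.log n)⁻¹ with hw
  have hlogpos : ∀ n : ℕ, m₀ < n → 1 ≤ Real.log n := by
    intro n hn
    rw [Real.le_log_iff_exp_le (by
      have : 0 < n := by omega
      exact_mod_cast this)]
    have h1 := Real.exp_one_lt_d9
    have h2 : (5 : ℝ) ≤ n := by exact_mod_cast (by omega : 5 ≤ n)
    linarith
  have hab := abel_bound w A m₀ (E + B) (fun n hn => by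
      have := hlogpos n hn
      rw [hw]
      positivity) (fun n hn => by
      have h1 := hlogpos n hn
      rw [hw]
      simp only
      apply inv_anti₀ (by linarith)
      apply Real.log_le_log
      · have : 0 < n := by omega
        exact_mod_cast this
      · push_cast
        linarith) m₁ h01 (fun t ht1 ht2 => by
      have h1 := hcls t ht1.le ht2
      rw [sum_filter] at h1
      exact h1)
  have hsum : ∑ p ∈ (Ioc m₀ m₁).filter (fun p => p.Prime ∧ p ≡ b [MOD d]), g p =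
      ∑ i ∈ Ioc m₀ m₁, (w i : ℂ) * A i := by
    rw [sum_filter]
    refine sum_congr rfl fun n hn => ?_
    have hn0 := hlogpos n (Finset.mem_Ioc.mp hn).1
    rw [hA, hw, hG]
    simp only
    by_cases h1 : n ≡ b [MOD d]
    · by_cases h2 : n.Prime
      · rw [if_pos ⟨h2, h1⟩, if_pos h1, if_pos h2, ← mul_assoc]
        rw [← Complex.ofReal_mul, inv_mul_cancel₀ (by linarith), Complex.ofReal_one, one_mul]
      · rw [if_neg (fun h3 => h2 h3.1), if_pos h1, if_neg h2]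
        simp
    · rw [if_neg (fun h3 => h1 h3.2), if_neg h1, mul_zero]
  rw [hsum]
  refine hab.trans ?_
  have hw1 : w (m₀ + 1) ≤ 1 := by
    rw [hw]
    exact inv_le_one_of_one_le₀ (hlogpos (m₀ + 1) (by omega))
  calc w (m₀ + 1) * (E + B) ≤ 1 * (E + B) := mul_le_mul_of_nonneg_right hw1 hEB
    _ = E + B := one_mul _

/-- powers at comparable points -/
lemma pow_cmp (Z N a A : ℝ) (hZ : 0 < Z) (h1 : Z / 2 ≤ N) (h2 : N ≤ Z) (ha : |a| ≤ A) :
    N ^ a ≤ 2 ^ A * Z ^ a ∧ Z ^ a ≤ 2 ^ A * N ^ a := by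
  have hN : 0 < N := by linarith
  have hA : 0 ≤ A := (abs_nonneg a).trans ha
  obtain ⟨ha1, ha2⟩ := abs_le.mp ha
  have h2A : (1 : ℝ) ≤ 2 ^ A := Real.one_le_rpow (by norm_num) hA
  rcases le_or_gt 0 a with h0 | h0
  · constructor
    · calc N ^ a ≤ Z ^ a := Real.rpow_le_rpow hN.le h2 h0
        _ ≤ _ := le_mul_of_one_le_left (by positivity) h2A
    · calc Z ^ a ≤ (2 * N) ^ a := Real.rpow_le_rpow hZ.le (by linarith) h0
        _ = 2 ^ a * N ^ a := Real.mul_rpow (by norm_num) hN.le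
        _ ≤ _ := by
          have : (2 : ℝ) ^ a ≤ 2 ^ A := Real.rpow_le_rpow_of_exponent_le (by norm_num) ha2
          gcongr
  · constructor
    · calc N ^ a ≤ (Z / 2) ^ a := Real.rpow_le_rpow_of_nonpos (by positivity) h1 h0.le
        _ = 2 ^ (-a) * Z ^ a := by
          rw [Real.div_rpow hZ.le (by norm_num), Real.rpow_neg (by norm_num)]
          ring
        _ ≤ _ := by
          have : (2 : ℝ) ^ (-a) ≤ 2 ^ A :=
            Real.rpow_le_rpow_of_exponent_le (by norm_num) (by linarith)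
          gcongr
    · calc Z ^ a ≤ N ^ a := Real.rpow_le_rpow_of_nonpos hN h2 h0.le
        _ ≤ _ := le_mul_of_one_le_left (by positivity) h2A

/-- the minimal distance of the exponents -/
lemma exists_gap {r : ℕ} (v : Fin r → ℝ) (hv : ∀ j, 0 < v j) :
    ∃ g : ℝ, 0 < g ∧ g ≤ 1 ∧ (∀ j, g ≤ v j) ∧ ∀ i j, v i < v j → v i ≤ v j - g := by
  classical
  set S : Finset ℝ := insert 1 ((univ.image v) ∪
    ((univ.filter (fun x : Fin r × Fin r => v x.1 < v x.2)).image (fun x => v x.2 - v x.1)))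
    with hS
  have hne : S.Nonempty := ⟨1, by simp [hS]⟩
  refine ⟨S.min' hne, ?_, S.min'_le 1 (by simp [hS]), ?_, ?_⟩
  · rw [Finset.lt_min'_iff]
    intro x hx
    simp only [hS, mem_insert, mem_union, mem_image, mem_filter, mem_univ, true_and] at hx
    rcases hx with rfl | ⟨j, rfl⟩ | ⟨x, h1, rfl⟩
    · norm_num
    · exact hv j
    · linarith
  · intro j
    exact S.min'_le _ (by simp [hS])
  · intro i j hij
    have := S.min'_le (v j - v i) (by
      simp only [hS, mem_insert, mem_union, mem_image, mem_filter, mem_univ, true_and]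
      right; right
      exact ⟨(i, j), hij, rfl⟩)
    linarith

/-- the uniform bound for the exponential sums over the primes of a class -/
theorem exp_primes {r : ℕ} (hr : 1 ≤ r) (c u : Fin r → ℝ) (F : Fin r → ℕ → ℝ → ℝ)
    (hSV : ∀ j, SV (c j) (F j)) (hcn : ∀ j, ∀ n : ℕ, c j ≠ n) (hv : ∀ j, 0 < c j + u j)
    (hinj : Function.Injective (fun j => c j + u j)) (D d b : ℕ) (hd : 0 < d) (ε : ℝ)
    (hε : 0 < ε) (hε1 : ε ≤ 1 / 2) :
    ∃ ρ δ : ℝ, 0 < ρ ∧ ρ ≤ 1 / 8 ∧ 0 < δ ∧ ∀ᶠ Z : ℝ in atTop, ∀ (α : Fin r → ℝ)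
      (h : Fin r → ℤ) (q : ℕ) (P : Polynomial ℝ),
      (∀ j, Z ^ (u j - δ) ≤ |α j| ∧ |α j| ≤ Z ^ (u j + δ)) → 1 ≤ q → (q : ℝ) ≤ Z ^ δ → h ≠ 0 →
      (∀ j, |(h j : ℝ)| ≤ Z ^ δ) → P.natDegree ≤ D → ⌊Z⌋₊ < ⌊(1 + ε) * Z⌋₊ →
      ‖∑ p ∈ (Ioc ⌊Z⌋₊ ⌊(1 + ε) * Z⌋₊).filter (fun p => p.Prime ∧ p ≡ b [MOD d]),
        e (∑ j, (h j : ℝ) * α j / q * F j 0 p + P.eval (p : ℝ))‖ ≤ 2 * Z ^ (1 - ρ) := by
  classical
  set v : Fin r → ℝ := fun j => c j + u j with hvdef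
  obtain ⟨g, hg0, hg1, hgv, hgap⟩ := exists_gap v hv
  set V : ℝ := ∑ j, |v j| with hV
  have hV0 : 0 ≤ V := sum_nonneg fun _ _ => abs_nonneg _
  have hvV : ∀ j, v j ≤ V := fun j =>
    (le_abs_self _).trans (single_le_sum (f := fun j => |v j|) (fun _ _ => abs_nonneg _) (mem_univ j))
  set Cc : ℝ := ∑ j, |c j| with hCc
  have hCc0 : 0 ≤ Cc := sum_nonneg fun _ _ => abs_nonneg _
  have hcC : ∀ j, |c j| ≤ Cc := fun j =>
    single_le_sum (f := fun j => |c j|) (fun _ _ => abs_nonneg _) (mem_univ j)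
  set d₀ : ℕ := ⌈2 * (V + 2)⌉₊ with hd₀
  have hd₀1 : 2 * (V + 2) ≤ d₀ := Nat.le_ceil _
  set Q : ℕ := 8 * d₀ + 1 + D + 1 + ⌈Cc⌉₊ with hQdef
  have hQc : ∀ j, c j < Q + 1 := by
    intro j
    have h1 := (le_abs_self (c j)).trans (hcC j)
    have h2 := Nat.le_ceil Cc
    have h3 : ((⌈Cc⌉₊ : ℕ) : ℝ) ≤ Q := by exact_mod_cast (by omega : ⌈Cc⌉₊ ≤ Q)
    linarith
  -- bounds for the derivatives
  choose a₁ a₂ T₁ σ τ ha₁ ha₁₂ hT₁ hσ hτ hHB using fun j => hb_exists (hSV j) (hcn j) Q (hQc j)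
  have hne : (univ : Finset (Fin r)).Nonempty := ⟨⟨0, hr⟩, mem_univ _⟩
  set c₁ : ℝ := univ.inf' hne a₁ with hc₁def
  set c₂ : ℝ := univ.sup' hne a₂ with hc₂def
  set T : ℝ := univ.sup' hne T₁ with hTdef
  have hc₁ : 0 < c₁ := (Finset.lt_inf'_iff _).mpr fun j _ => ha₁ j
  have hc₁a : ∀ j, c₁ ≤ a₁ j := fun j => Finset.inf'_le _ (mem_univ j)
  have hc₂a : ∀ j, a₂ j ≤ c₂ := fun j => Finset.le_sup' _ (mem_univ j)
  have hTa : ∀ j, T₁ j ≤ T := fun j => Finset.le_sup' _ (mem_univ j)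
  have hc₂ : c₁ ≤ c₂ := (hc₁a ⟨0, hr⟩).trans ((ha₁₂ ⟨0, hr⟩).trans (hc₂a ⟨0, hr⟩))
  have hT : 1 ≤ T := (hT₁ ⟨0, hr⟩).trans (hTa ⟨0, hr⟩)
  have hHB' : ∀ j, HB Q c₁ c₂ T (σ j) (τ j) (F j) := fun j =>
    (hHB j).mono (hc₁a j) (hc₂a j) (hTa j)
  have hc₂0 : 0 < c₂ := by linarith
  have hQ0 : (0 : ℝ) ≤ Q := Nat.cast_nonneg Q
  obtain ⟨ρ, hρ0, hρ1, N₀, hsum⟩ := prime_pd Q d₀ (by omega) (c₁ / 2) (2 * (Q + 3) * c₂) (g / 2)
    (by positivity) (by nlinarith) (by positivity) (by linarith)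
  set κ₀ : ℝ := c₁ / (4 * (Q + 3) * c₂) with hκ₀
  have hκ₀0 : 0 < κ₀ := by positivity
  -- power bounds
  have hpb : ∀ᶠ y in atTop, ∀ j, y ^ (c j - g / 32) ≤ F j 0 y ∧ F j 0 y ≤ y ^ (c j + g / 32) := by
    rw [Filter.eventually_all]
    intro j
    exact power_bounds (hSV j) (g / 32) (by positivity)
  obtain ⟨T₂, hT₂⟩ := eventually_atTop.mp hpb
  set W : ℝ := 2 ^ (Cc + 1) with hW
  have hW1 : 1 ≤ W := Real.one_le_rpow (by norm_num) (by positivity)
  have hW0 : 0 < W := by linarith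
  have hlogev : ∀ᶠ Z : ℝ in atTop, Real.log (2 * Z) ≤ Z ^ (1 / 4 : ℝ) := by
    have e1 := (isLittleO_log_rpow_atTop (show (0 : ℝ) < 1 / 8 by norm_num)).def
      (show (0 : ℝ) < 1 by norm_num)
    have e2 : Tendsto (fun Z : ℝ => 2 * Z) atTop atTop := tendsto_id.const_mul_atTop (by norm_num)
    filter_upwards [e2.eventually e1, eventually_ge_atTop (1 : ℝ),
      ev_pow (1 / 8) (1 / 4) (2 ^ (1 / 8 : ℝ)) (by norm_num)] with Z e3 e4 e5
    rw [Real.norm_eq_abs, Real.norm_eq_abs, abs_of_nonneg (Real.log_nonneg (by linarith)),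
      abs_of_nonneg (by positivity), one_mul, Real.mul_rpow (by norm_num) (by linarith)] at e3
    linarith
  refine ⟨ρ, g / 32, hρ0, hρ1, by positivity, ?_⟩
  filter_upwards [hlogev, ev_pow (3 / 4) (1 - ρ) 4 (by linarith),
    eventually_ge_atTop (max (max 4 (2 * T)) (max (2 * T₂) ((N₀ : ℝ) + 1))),
    (tendsto_rpow_atTop (show 0 < g / 4 by positivity)).eventually_ge_atTop W,
    (tendsto_rpow_atTop (show 0 < g / 2 by positivity)).eventually_ge_atTop (r * W * W / κ₀)]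
    with Z hlog hp1 hbig hgW hgR
  intro α h q P hα hq hqZ hh hhZ hPD hm01
  have hZ4 : 4 ≤ Z := ((le_max_left _ _).trans (le_max_left _ _)).trans hbig
  have hZT : 2 * T ≤ Z := ((le_max_right _ _).trans (le_max_left _ _)).trans hbig
  have hZT₂ : 2 * T₂ ≤ Z := ((le_max_left _ _).trans (le_max_right _ _)).trans hbig
  have hZN : (N₀ : ℝ) + 1 ≤ Z := ((le_max_right _ _).trans (le_max_right _ _)).trans hbig
  have hZ0 : 0 < Z := by linarith
  have hZ1 : 1 ≤ Z := by linarith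
  set m₀ : ℕ := ⌊Z⌋₊ with hm₀
  set m₁ : ℕ := ⌊(1 + ε) * Z⌋₊ with hm₁
  have hm04 : 4 ≤ m₀ := Nat.le_floor (by exact_mod_cast hZ4)
  have hm0N : N₀ ≤ m₀ := Nat.le_floor (by linarith)
  have hm0Z : (m₀ : ℝ) ≤ Z := Nat.floor_le hZ0.le
  have hm0Z2 : Z / 2 ≤ (m₀ : ℝ) := by
    have := Nat.lt_floor_add_one Z
    rw [← hm₀] at this
    linarith
  have hm1' : (m₁ : ℝ) ≤ (1 + ε) * Z := Nat.floor_le (by positivity)
  have hm1 : (m₁ : ℝ) ≤ 2 * Z := by nlinarith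
  have hm12 : m₁ ≤ 2 * m₀ := by
    have h2 := Nat.lt_floor_add_one Z
    rw [← hm₀] at h2
    have : (m₁ : ℝ) ≤ 2 * m₀ := by nlinarith
    exact_mod_cast this
  have hTN : T ≤ m₀ := by linarith
  have hq0 : (0 : ℝ) < q := by exact_mod_cast hq
  have hq1 : (1 : ℝ) ≤ q := by exact_mod_cast hq
  -- the coefficients
  set θ : Fin r → ℝ := fun j => (h j : ℝ) * α j / q with hθ
  have hFb : ∀ j, (m₀ : ℝ) ^ (c j - g / 32) ≤ F j 0 m₀ ∧ F j 0 m₀ ≤ (m₀ : ℝ) ^ (c j + g / 32) :=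
    hT₂ m₀ (by linarith)
  have hcab : ∀ j, |c j - g / 32| ≤ Cc + 1 ∧ |c j + g / 32| ≤ Cc + 1 := by
    intro j
    have h1 := hcC j
    constructor
    · calc |c j - g / 32| ≤ |c j| + |g / 32| := abs_sub _ _
        _ ≤ _ := by rw [abs_of_pos (show 0 < g / 32 by positivity)]; linarith
    · calc |c j + g / 32| ≤ |c j| + |g / 32| := abs_add_le _ _
        _ ≤ _ := by rw [abs_of_pos (show 0 < g / 32 by positivity)]; linarith
  have hup : ∀ j, |θ j| * F j 0 m₀ ≤ W * Z ^ (v j + 3 * (g / 32)) := by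
    intro j
    have h1 : |θ j| ≤ Z ^ (g / 32) * Z ^ (u j + g / 32) := by
      rw [hθ]
      simp only
      rw [abs_div, abs_mul, abs_of_pos hq0]
      calc |(h j : ℝ)| * |α j| / q ≤ |(h j : ℝ)| * |α j| := div_le_self (by positivity) hq1
        _ ≤ _ := mul_le_mul (hhZ j) (hα j).2 (abs_nonneg _) (by positivity)
    have h2 : F j 0 m₀ ≤ W * Z ^ (c j + g / 32) :=
      (hFb j).2.trans (pow_cmp Z m₀ _ _ hZ0 hm0Z2 hm0Z (hcab j).2).1
    calc |θ j| * F j 0 m₀ ≤ (Z ^ (g / 32) * Z ^ (u j + g / 32)) * (W * Z ^ (c j + g / 32)) :=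
          mul_le_mul h1 h2 (le_trans (by positivity) (hFb j).1) (by positivity)
      _ = W * (Z ^ (g / 32) * Z ^ (u j + g / 32) * Z ^ (c j + g / 32)) := by ring
      _ = _ := by
        rw [← Real.rpow_add hZ0, ← Real.rpow_add hZ0, hvdef]
        congr 2
        ring
  have hdn : ∀ j, h j ≠ 0 → Z ^ (v j - 3 * (g / 32)) ≤ W * (|θ j| * F j 0 m₀) := by
    intro j hj
    have h0 : (1 : ℝ) ≤ |(h j : ℝ)| := by
      have := Int.one_le_abs hj
      exact_mod_cast this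
    have h1 : Z ^ (-(g / 32)) * Z ^ (u j - g / 32) ≤ |θ j| := by
      rw [hθ]
      simp only
      rw [abs_div, abs_mul, abs_of_pos hq0, Real.rpow_neg hZ0.le]
      calc (Z ^ (g / 32))⁻¹ * Z ^ (u j - g / 32) ≤ (q : ℝ)⁻¹ * |α j| := by
            apply mul_le_mul _ (hα j).1 (by positivity) (by positivity)
            exact inv_anti₀ hq0 hqZ
        _ = 1 * |α j| / q := by ring
        _ ≤ _ := by gcongr
    have h2 : Z ^ (c j - g / 32) ≤ W * F j 0 m₀ := by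
      refine (pow_cmp Z m₀ _ _ hZ0 hm0Z2 hm0Z (hcab j).1).2.trans ?_
      have := (hFb j).1
      gcongr
    calc Z ^ (v j - 3 * (g / 32)) = Z ^ (-(g / 32)) * Z ^ (u j - g / 32) * Z ^ (c j - g / 32) := by
          rw [← Real.rpow_add hZ0, ← Real.rpow_add hZ0, hvdef]
          congr 1
          ring
      _ ≤ |θ j| * (W * F j 0 m₀) := mul_le_mul h1 h2 (by positivity) (abs_nonneg _)
      _ = _ := by ring
  -- the dominating index
  have hex : ∃ j, h j ≠ 0 := by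
    by_contra hcon
    push Not at hcon
    exact hh (funext hcon)
  obtain ⟨j₀, hj₀, hmax⟩ := exists_max_image (univ.filter (fun j => h j ≠ 0)) v (by
    obtain ⟨j, hj⟩ := hex
    exact ⟨j, by simp [hj]⟩)
  have hj₀' : h j₀ ≠ 0 := by simpa using hj₀
  have hα₀ : 0 < |α j₀| := lt_of_lt_of_le (by positivity) (hα j₀).1
  have hθ₀ : θ j₀ ≠ 0 := by
    rw [hθ]
    simp only
    have h1 : (h j₀ : ℝ) ≠ 0 := by exact_mod_cast hj₀'
    have h2 : α j₀ ≠ 0 := abs_pos.mp hα₀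
    positivity
  set Φ : ℝ := |θ j₀| * F j₀ 0 m₀ with hΦ
  have hΦlo := hdn j₀ hj₀'
  rw [← hΦ] at hΦlo
  have hdom : ∑ j ∈ univ.erase j₀, |θ j| * F j 0 m₀ ≤ κ₀ * Φ := by
    have h1 : ∀ j ∈ univ.erase j₀, |θ j| * F j 0 m₀ ≤ W * Z ^ (v j₀ - g + 3 * (g / 32)) := by
      intro j hj
      rw [mem_erase] at hj
      by_cases hj0 : h j = 0
      · have : θ j = 0 := by rw [hθ]; simp [hj0]
        rw [this, abs_zero, zero_mul]
        positivity
      · have h2 := hmax j (by simp [hj0])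
        have h3 : v j ≠ v j₀ := fun h4 => hj.1 (hinj h4)
        have h4 := hgap j j₀ (lt_of_le_of_ne h2 h3)
        refine (hup j).trans ?_
        apply mul_le_mul_of_nonneg_left _ hW0.le
        exact Real.rpow_le_rpow_of_exponent_le hZ1 (by linarith)
    calc ∑ j ∈ univ.erase j₀, |θ j| * F j 0 m₀
        ≤ ∑ _j ∈ univ.erase j₀, W * Z ^ (v j₀ - g + 3 * (g / 32)) := sum_le_sum h1
      _ = ((univ.erase j₀).card : ℝ) * (W * Z ^ (v j₀ - g + 3 * (g / 32))) := by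
          rw [sum_const, nsmul_eq_mul]
      _ ≤ r * (W * Z ^ (v j₀ - g + 3 * (g / 32))) := by
          gcongr
          have h2 := card_le_univ (univ.erase j₀)
          rwa [Fintype.card_fin] at h2
      _ ≤ r * (W * Z ^ (v j₀ - 3 * (g / 32) - g / 2)) := by
          apply mul_le_mul_of_nonneg_left _ (Nat.cast_nonneg r)
          apply mul_le_mul_of_nonneg_left _ hW0.le
          exact Real.rpow_le_rpow_of_exponent_le hZ1 (by linarith)
      _ = r * W * (Z ^ (v j₀ - 3 * (g / 32)) / Z ^ (g / 2)) := by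
          rw [Real.rpow_sub hZ0]
          ring
      _ ≤ r * W * ((W * Φ) / Z ^ (g / 2)) := by gcongr
      _ = (r * W * W) * (Φ / Z ^ (g / 2)) := by ring
      _ ≤ (κ₀ * Z ^ (g / 2)) * (Φ / Z ^ (g / 2)) := by
          have h2 : r * W * W ≤ κ₀ * Z ^ (g / 2) := by
            rw [div_le_iff₀ hκ₀0] at hgR
            linarith
          have h3 : 0 ≤ Φ := by
            have : 0 < Z ^ (v j₀ - 3 * (g / 32)) := by positivity
            by_contra h4
            rw [not_le] at h4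
            nlinarith
          gcongr
      _ = κ₀ * Φ := by field_simp
  have hΦ1 : (m₀ : ℝ) ^ (g / 2) ≤ Φ := by
    have h1 : W * Z ^ (g / 2) ≤ W * Φ := by
      calc W * Z ^ (g / 2) ≤ Z ^ (g / 4) * Z ^ (g / 2) := by gcongr
        _ = Z ^ (g / 4 + g / 2) := by rw [← Real.rpow_add hZ0]
        _ ≤ Z ^ (v j₀ - 3 * (g / 32)) :=
            Real.rpow_le_rpow_of_exponent_le hZ1 (by linarith [hgv j₀])
        _ ≤ _ := hΦlo
    have h2 : Z ^ (g / 2) ≤ Φ := le_of_mul_le_mul_left h1 hW0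
    exact (Real.rpow_le_rpow (by positivity) hm0Z (by positivity)).trans h2
  have hΦ2 : Φ ≤ (m₀ : ℝ) ^ d₀ := by
    have hm0pos : (0 : ℝ) < m₀ := by linarith
    have hm0one : (1 : ℝ) ≤ m₀ := by exact_mod_cast (by omega : 1 ≤ m₀)
    have h2 : Z ≤ (m₀ : ℝ) ^ (2 : ℝ) := by
      have h4 : (4 : ℝ) ≤ m₀ := by exact_mod_cast hm04
      rw [Real.rpow_two]
      nlinarith
    calc Φ ≤ W * Z ^ (v j₀ + 3 * (g / 32)) := hup j₀
      _ ≤ Z ^ (g / 4) * Z ^ (v j₀ + 3 * (g / 32)) := by gcongr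
      _ = Z ^ (g / 4 + (v j₀ + 3 * (g / 32))) := by rw [← Real.rpow_add hZ0]
      _ ≤ Z ^ (V + 2) := Real.rpow_le_rpow_of_exponent_le hZ1 (by linarith [hvV j₀])
      _ ≤ ((m₀ : ℝ) ^ (2 : ℝ)) ^ (V + 2) := Real.rpow_le_rpow hZ0.le h2 (by positivity)
      _ = (m₀ : ℝ) ^ (2 * (V + 2)) := by rw [← Real.rpow_mul hm0pos.le]
      _ ≤ (m₀ : ℝ) ^ ((d₀ : ℕ) : ℝ) := Real.rpow_le_rpow_of_exponent_le hm0one hd₀1
      _ = _ := Real.rpow_natCast _ _
  -- the sums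
  have hm0r : (m₀ : ℝ) ^ (1 - ρ) ≤ Z ^ (1 - ρ) :=
    Real.rpow_le_rpow (by positivity) hm0Z (by linarith)
  have hres := primes_class_of_lambda (fun n => e (∑ j, θ j * F j 0 n + P.eval (n : ℝ)))
    (fun n => (norm_e _).le) m₀ m₁ hm04 hm01 d b hd (Z ^ (1 - ρ)) (Z ^ (1 - ρ)) (by positivity)
    (by
      intro t ht0 ht2
      have htr : (t : ℝ) ≤ 2 * Z := by
        have : (t : ℝ) ≤ m₁ := by exact_mod_cast ht2
        linarith
      have h7 : √(t : ℝ) ≤ 2 * Z ^ (1 / 2 : ℝ) := by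
        rw [← Real.sqrt_eq_rpow]
        calc √(t : ℝ) ≤ √(2 ^ 2 * Z) := Real.sqrt_le_sqrt (by linarith)
          _ = 2 * √Z := by rw [Real.sqrt_mul (by norm_num), Real.sqrt_sq (by norm_num)]
      have h8 : Real.log (t : ℝ) ≤ Z ^ (1 / 4 : ℝ) := by
        refine le_trans ?_ hlog
        apply Real.log_le_log _ htr
        exact_mod_cast ht0
      have h9 : 0 ≤ Real.log (t : ℝ) := Real.log_nonneg (by exact_mod_cast ht0)
      calc 2 * √(t : ℝ) * Real.log t ≤ 2 * (2 * Z ^ (1 / 2 : ℝ)) * Z ^ (1 / 4 : ℝ) := by gcongr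
        _ = 4 * (Z ^ (1 / 2 : ℝ) * Z ^ (1 / 4 : ℝ)) := by ring
        _ = 4 * Z ^ (3 / 4 : ℝ) := by rw [← Real.rpow_add hZ0]; norm_num
        _ ≤ _ := hp1)
    (by
      intro t ht1 ht2 k hk
      set Pk : Polynomial ℝ := P + Polynomial.C ((k : ℝ) / d) * Polynomial.X with hPk
      have hPkd : Pk.natDegree ≤ Q := by
        refine (Polynomial.natDegree_add_le _ _).trans (max_le (by omega) ?_)
        refine (Polynomial.natDegree_C_mul_le _ _).trans ?_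
        rw [Polynomial.natDegree_X]
        omega
      obtain ⟨σ', τ', hσ', hτ', hPDk⟩ := pd_sum hc₁ hc₂ hT hσ hτ hHB' θ Pk hPkd j₀ hθ₀ m₀ hTN
        (by rw [← hκ₀, ← hΦ]; exact hdom)
      have h1 := hsum m₀ t hm0N ht1 (ht2.trans hm12) Φ σ' τ' _ hσ' hτ' hΦ1 hΦ2 hPDk
      refine le_trans (le_of_eq ?_) (h1.trans hm0r)
      congr 1
      refine sum_congr rfl fun n _ => ?_
      congr 1
      rw [← e_add]
      congr 1
      rw [GG, Function.iterate_zero, id, hPk, Polynomial.eval_add, Polynomial.eval_mul,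
        Polynomial.eval_C, Polynomial.eval_X]
      ring)
  calc _ ≤ Z ^ (1 - ρ) + Z ^ (1 - ρ) := hres
    _ = _ := by ring

end Pool.Agent.N542.PQ
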