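import Pool.Agent.N542.PQ.SV

set_option autoImplicit false
set_option maxHeartbeats 4000000

/-! Linear combinations of smoothly varying functions of different sizes, plus a polynomial. -/

namespace Pool.Agent.N542.PQ

open Finset Filter Topology
open Pool.Agent.N542.PP (SV fall fall_succ fall_ne)

/-- the phase and its derivatives -/
noncomputable def GG {r : ℕ} (F : Fin r → ℕ → ℝ → ℝ) (θ : Fin r → ℝ) (P : Polynomial ℝ) (m : ℕ)
    (t : ℝ) : ℝ :=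
  ∑ j, θ j * F j m t + (Polynomial.derivative^[m] P).eval t

lemma GG_high {r : ℕ} (F : Fin r → ℕ → ℝ → ℝ) (θ : Fin r → ℝ) (P : Polynomial ℝ) (Q m : ℕ)
    (hP : P.natDegree ≤ Q) (hm : Q < m) (t : ℝ) : GG F θ P m t = ∑ j, θ j * F j m t := by
  rw [GG, Polynomial.iterate_derivative_eq_zero (by omega), Polynomial.eval_zero, add_zero]

lemma comb {r : ℕ} (θ V f : Fin r → ℝ) (j₀ : Fin r) (ε s B κ : ℝ) (hε : ε = 1 ∨ ε = -1)
    (hεθ : ε * θ j₀ = |θ j₀|) (hs : s = 1 ∨ s = -1) (hB : 0 ≤ B) (hV : ∀ j, |V j| ≤ B * f j)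
    (hdom : ∑ j ∈ univ.erase j₀, |θ j| * f j ≤ κ) :
    |(ε * s) * (∑ j, θ j * V j) - |θ j₀| * (s * V j₀)| ≤ B * κ := by
  rw [← add_sum_erase _ _ (mem_univ j₀)]
  have e1 : (ε * s) * (θ j₀ * V j₀ + ∑ j ∈ univ.erase j₀, θ j * V j) - |θ j₀| * (s * V j₀) =
      (ε * s) * ∑ j ∈ univ.erase j₀, θ j * V j := by
    rw [← hεθ]
    ring
  rw [e1, abs_mul, abs_mul]
  have h1 : |ε| = 1 := by rcases hε with h | h <;> simp [h]
  have h2 : |s| = 1 := by rcases hs with h | h <;> simp [h]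
  rw [h1, h2, one_mul, one_mul]
  calc |∑ j ∈ univ.erase j₀, θ j * V j| ≤ ∑ j ∈ univ.erase j₀, |θ j * V j| := abs_sum_le_sum_abs _ _
    _ ≤ ∑ j ∈ univ.erase j₀, B * (|θ j| * f j) := by
        apply sum_le_sum
        intro j _
        rw [abs_mul]
        calc |θ j| * |V j| ≤ |θ j| * (B * f j) := by
              have := hV j
              gcongr
          _ = _ := by ring
    _ = B * ∑ j ∈ univ.erase j₀, |θ j| * f j := by rw [mul_sum]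
    _ ≤ _ := by gcongr

theorem pd_sum {r : ℕ} {F : Fin r → ℕ → ℝ → ℝ} {Q : ℕ} {c₁ c₂ T : ℝ} {σ τ : Fin r → ℝ}
    (hc₁ : 0 < c₁) (hc₂ : c₁ ≤ c₂) (hT : 1 ≤ T)
    (hσ : ∀ j, σ j = 1 ∨ σ j = -1) (hτ : ∀ j, τ j = 1 ∨ τ j = -1)
    (hHB : ∀ j, HB Q c₁ c₂ T (σ j) (τ j) (F j)) (θ : Fin r → ℝ) (P : Polynomial ℝ)
    (hP : P.natDegree ≤ Q) (j₀ : Fin r) (hθ : θ j₀ ≠ 0) (N : ℝ) (hN : T ≤ N)
    (hdom : ∑ j ∈ univ.erase j₀, |θ j| * F j 0 N ≤
      c₁ / (4 * (Q + 3) * c₂) * (|θ j₀| * F j₀ 0 N)) :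
    ∃ σ' τ' : ℝ, (σ' = 1 ∨ σ' = -1) ∧ (τ' = 1 ∨ τ' = -1) ∧
      PD Q N (|θ j₀| * F j₀ 0 N) (c₁ / 2) (2 * (Q + 3) * c₂) σ' τ' (GG F θ P) := by
  obtain ⟨ε, hε, hεθ⟩ := sgn_exists (θ j₀) hθ
  have hprod : ∀ s : ℝ, (s = 1 ∨ s = -1) → (ε * s = 1 ∨ ε * s = -1) := by
    intro s hs
    rcases hε with h | h <;> rcases hs with h' | h' <;> simp [h, h']
  refine ⟨ε * σ j₀, ε * τ j₀, hprod _ (hσ j₀), hprod _ (hτ j₀), ?_⟩
  have hN0 : 0 < N := by linarith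
  have hc₂0 : 0 < c₂ := by linarith
  have hFN : ∀ j, 0 < F j 0 N := fun j => (hHB j N N hN le_rfl (by linarith)).1
  set Φ : ℝ := |θ j₀| * F j₀ 0 N with hΦ
  have hΦ0 : 0 < Φ := mul_pos (abs_pos.mpr hθ) (hFN j₀)
  set κ : ℝ := c₁ / (4 * (Q + 3) * c₂) * Φ with hκ
  have hQ0 : (0 : ℝ) ≤ Q := Nat.cast_nonneg Q
  have hBκ : ∀ B : ℝ, B ≤ (Q + 3) * c₂ → B * κ ≤ c₁ / 4 * Φ := by
    intro B hB
    have hκ0 : 0 ≤ κ := by positivity
    calc B * κ ≤ ((Q + 3) * c₂) * κ := by gcongr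
      _ = c₁ / 4 * Φ := by rw [hκ]; field_simp
  have habsθ : 0 < |θ j₀| := abs_pos.mpr hθ
  -- the vectors of the values
  have key : ∀ (V : Fin r → ℝ) (s B : ℝ), (s = 1 ∨ s = -1) → 0 ≤ B → B ≤ (Q + 3) * c₂ →
      (∀ j, |V j| ≤ B * F j 0 N) →
      |(ε * s) * (∑ j, θ j * V j) - |θ j₀| * (s * V j₀)| ≤ c₁ / 4 * Φ := by
    intro V s B hs hB hB2 hV
    exact (comb θ V (fun j => F j 0 N) j₀ ε s B κ hε hεθ hs hB hV hdom).trans (hBκ B hB2)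
  have hc4 : c₁ / 4 * Φ ≤ c₂ * Φ := by
    apply mul_le_mul_of_nonneg_right _ hΦ0.le
    linarith
  have hup : ∀ (V s B : ℝ), (s = 1 ∨ s = -1) → 0 ≤ B → B ≤ (Q + 3) * c₂ → |V| ≤ B * F j₀ 0 N →
      |θ j₀| * (s * V) ≤ (Q + 3) * c₂ * Φ := by
    intro V s B hs hB hB2 hV
    have h1 : s * V ≤ |V| := by
      rcases hs with h | h
      · rw [h, one_mul]; exact le_abs_self V
      · rw [h, neg_one_mul]; exact neg_le_abs V
    calc |θ j₀| * (s * V) ≤ |θ j₀| * (B * F j₀ 0 N) := by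
          apply mul_le_mul_of_nonneg_left (h1.trans hV) habsθ.le
      _ ≤ |θ j₀| * ((Q + 3) * c₂ * F j₀ 0 N) := by
          have := hFN j₀
          gcongr
      _ = _ := by rw [hΦ]; ring
  have hlo : ∀ W : ℝ, c₁ * F j₀ 0 N ≤ W → c₁ * Φ ≤ |θ j₀| * W := by
    intro W hW
    calc c₁ * Φ = |θ j₀| * (c₁ * F j₀ 0 N) := by rw [hΦ]; ring
      _ ≤ _ := by gcongr
  have hlo' : ∀ W : ℝ, W ≤ -(c₁ * F j₀ 0 N) → |θ j₀| * W ≤ -(c₁ * Φ) := by
    intro W hW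
    calc |θ j₀| * W ≤ |θ j₀| * (-(c₁ * F j₀ 0 N)) := by gcongr
      _ = _ := by rw [hΦ]; ring
  have e1 : ∀ t : ℝ, t ^ (Q + 1) * GG F θ P (Q + 1) t = ∑ j, θ j * (t ^ (Q + 1) * F j (Q + 1) t) := by
    intro t
    rw [GG_high F θ P Q _ hP (by omega), mul_sum]
    exact sum_congr rfl fun j _ => by ring
  have e2 : ∀ t : ℝ, t ^ (Q + 2) * GG F θ P (Q + 2) t = ∑ j, θ j * (t ^ (Q + 2) * F j (Q + 2) t) := by
    intro t
    rw [GG_high F θ P Q _ hP (by omega), mul_sum]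
    exact sum_congr rfl fun j _ => by ring
  have e3 : ∀ t : ℝ, t ^ (Q + 3) * GG F θ P (Q + 3) t = ∑ j, θ j * (t ^ (Q + 3) * F j (Q + 3) t) := by
    intro t
    rw [GG_high F θ P Q _ hP (by omega), mul_sum]
    exact sum_congr rfl fun j _ => by ring
  have e4 : ∀ t : ℝ, ((Q + 1 : ℕ) : ℝ) * (t ^ (Q + 1) * GG F θ P (Q + 1) t) +
      t ^ (Q + 2) * GG F θ P (Q + 2) t = ∑ j, θ j * (((Q + 1 : ℕ) : ℝ) *
        (t ^ (Q + 1) * F j (Q + 1) t) + t ^ (Q + 2) * F j (Q + 2) t) := by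
    intro t
    rw [e1, e2, mul_sum, ← sum_add_distrib]
    exact sum_congr rfl fun j _ => by ring
  have e5 : ∀ t : ℝ, ((Q + 2 : ℕ) : ℝ) * (t ^ (Q + 2) * GG F θ P (Q + 2) t) +
      t ^ (Q + 3) * GG F θ P (Q + 3) t = ∑ j, θ j * (((Q + 2 : ℕ) : ℝ) *
        (t ^ (Q + 2) * F j (Q + 2) t) + t ^ (Q + 3) * F j (Q + 3) t) := by
    intro t
    rw [e2, e3, mul_sum, ← sum_add_distrib]
    exact sum_congr rfl fun j _ => by ring
  have hmix : ∀ (k : ℕ) (a b f : ℝ), (k : ℝ) ≤ Q + 2 → |a| ≤ c₂ * f → |b| ≤ c₂ * f → 0 < f →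
      |(k : ℝ) * a + b| ≤ (Q + 3) * c₂ * f := by
    intro k a b f hk ha hb hf
    calc |(k : ℝ) * a + b| ≤ |(k : ℝ) * a| + |b| := abs_add_le _ _
      _ = (k : ℝ) * |a| + |b| := by rw [abs_mul, Nat.abs_cast]
      _ ≤ (Q + 2) * (c₂ * f) + c₂ * f := by
          have : 0 ≤ |a| := abs_nonneg a
          gcongr
      _ = _ := by ring
  constructor
  · intro m hm t h1 h2
    have h3 : ∀ j ∈ (univ : Finset (Fin r)), HasDerivAt (fun t => θ j * F j m t)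
        (θ j * F j (m + 1) t) t := fun j _ => ((hHB j N t hN h1 h2).2.1 m hm).const_mul (θ j)
    have h4 := (HasDerivAt.fun_sum h3).add ((Polynomial.derivative^[m] P).hasDerivAt t)
    rw [← Function.iterate_succ_apply' Polynomial.derivative m P] at h4
    exact h4
  · intro t h1 h2
    obtain ⟨a1, a2, a3, a4, a5, a6, a7⟩ := hHB j₀ N t hN h1 h2
    rw [e1]
    have hB : c₂ ≤ (Q + 3) * c₂ := by nlinarith
    have hk := abs_le.mp (key (fun j => t ^ (Q + 1) * F j (Q + 1) t) (σ j₀) c₂ (hσ j₀) hc₂0.le hB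
      (fun j => (hHB j N t hN h1 h2).2.2.1 (Q + 1) le_rfl (by omega)))
    have hl := hlo _ a4
    have hu := hup _ (σ j₀) c₂ (hσ j₀) hc₂0.le hB (a3 (Q + 1) le_rfl (by omega))
    constructor
    · linarith [hk.1]
    · have : c₂ * Φ ≤ (Q + 3) * c₂ * Φ := by gcongr
      linarith [hk.2]
  · intro t h1 h2
    obtain ⟨a1, a2, a3, a4, a5, a6, a7⟩ := hHB j₀ N t hN h1 h2
    rw [e4]
    have hV : ∀ j, |((Q + 1 : ℕ) : ℝ) * (t ^ (Q + 1) * F j (Q + 1) t) +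
        t ^ (Q + 2) * F j (Q + 2) t| ≤ (Q + 3) * c₂ * F j 0 N := by
      intro j
      have h3 := (hHB j N t hN h1 h2).2.2.1
      exact hmix (Q + 1) _ _ _ (by push_cast; linarith) (h3 (Q + 1) le_rfl (by omega))
        (h3 (Q + 2) (by omega) (by omega)) (hFN j)
    have hk := abs_le.mp (key (fun j => ((Q + 1 : ℕ) : ℝ) * (t ^ (Q + 1) * F j (Q + 1) t) +
      t ^ (Q + 2) * F j (Q + 2) t) (τ j₀) ((Q + 3) * c₂) (hτ j₀) (by positivity) le_rfl hV)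
    have hl := hlo _ a5
    have hu := hup _ (τ j₀) ((Q + 3) * c₂) (hτ j₀) (by positivity) le_rfl (hV j₀)
    constructor
    · linarith [hk.1]
    · have : c₂ * Φ ≤ (Q + 3) * c₂ * Φ := by
        apply mul_le_mul_of_nonneg_right _ hΦ0.le
        nlinarith
      linarith [hk.2]
  · intro t h1 h2
    obtain ⟨a1, a2, a3, a4, a5, a6, a7⟩ := hHB j₀ N t hN h1 h2
    rw [e2]
    have hB : c₂ ≤ (Q + 3) * c₂ := by nlinarith
    have hk := abs_le.mp (key (fun j => t ^ (Q + 2) * F j (Q + 2) t) (σ j₀) c₂ (hσ j₀) hc₂0.le hB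
      (fun j => (hHB j N t hN h1 h2).2.2.1 (Q + 2) (by omega) (by omega)))
    have hl := hlo' _ a6
    have : 0 < c₁ * Φ := by positivity
    linarith [hk.2]
  · intro t h1 h2
    obtain ⟨a1, a2, a3, a4, a5, a6, a7⟩ := hHB j₀ N t hN h1 h2
    rw [e5]
    have hV : ∀ j, |((Q + 2 : ℕ) : ℝ) * (t ^ (Q + 2) * F j (Q + 2) t) +
        t ^ (Q + 3) * F j (Q + 3) t| ≤ (Q + 3) * c₂ * F j 0 N := by
      intro j
      have h3 := (hHB j N t hN h1 h2).2.2.1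
      exact hmix (Q + 2) _ _ _ (by push_cast; linarith) (h3 (Q + 2) (by omega) (by omega))
        (h3 (Q + 3) (by omega) (by omega)) (hFN j)
    have hk := abs_le.mp (key (fun j => ((Q + 2 : ℕ) : ℝ) * (t ^ (Q + 2) * F j (Q + 2) t) +
      t ^ (Q + 3) * F j (Q + 3) t) (τ j₀) ((Q + 3) * c₂) (hτ j₀) (by positivity) le_rfl hV)
    have hl := hlo' _ a7
    have : 0 < c₁ * Φ := by positivity
    linarith [hk.2]

end Pool.Agent.N542.PQ
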