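import Pool.Agent.N542.PQ.Assembly
import Pool.Agent.TH915.PW.APCount
import Pool.Agent.Y961.JR.ScaledJ

set_option autoImplicit false
set_option maxHeartbeats 4000000

/-! Simultaneous record prime-free neighbourhoods. -/

namespace Pool.Agent.N542.PQ

open Finset Filter Topology
open Pool.Agent.H469R2.NK (e norm_e e_add)
open Pool.Agent.N542.PP (SV)
open Pool.Agent.TH915.PW (card_primes)
open Pool.Agent.W147.PS (ff ev_pow)
open Pool.Agent.Y961.JR (crit_scaledJ)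

theorem joint {r : ℕ} (hr : 1 ≤ r) (c u : Fin r → ℝ) (F : Fin r → ℕ → ℝ → ℝ)
    (hSV : ∀ j, SV (c j) (F j)) (hcn : ∀ j, ∀ n : ℕ, c j ≠ n) (hv : ∀ j, 0 < c j + u j)
    (hinj : Function.Injective (fun j => c j + u j)) (D d b : ℕ) (hd : 0 < d) (hb : b.Coprime d)
    (ε : ℝ) (hε : 0 < ε) (hε1 : ε ≤ 1 / 2) :
    ∃ κ δ : ℝ, 0 < κ ∧ 0 < δ ∧ ∀ᶠ Z : ℝ in atTop, ∀ (α : Fin r → ℝ) (P : Fin r → Polynomial ℝ),
      (∀ j, Z ^ (u j - δ) ≤ |α j| ∧ |α j| ≤ Z ^ (u j + δ)) → (∀ j, (P j).natDegree ≤ D) →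
      (∀ j, ∀ n : ℕ, Z < n → (n : ℝ) ≤ (1 + ε) * Z → Z ^ ε ≤ α j * F j 0 n + (P j).eval (n : ℝ)) →
      ∃ G : Finset ℕ, Z ^ (1 - ε) ≤ (G.card : ℝ) ∧ ∀ p ∈ G, p.Prime ∧ p ≡ b [MOD d] ∧
        Z < p ∧ (p : ℝ) ≤ (1 + ε) * Z ∧
        ∀ j, ∀ q : ℕ, q.Prime → κ * ff Z < |(q : ℝ) - (α j * F j 0 p + (P j).eval (p : ℝ))| := by
  classical
  obtain ⟨ρ, δ, hρ0, hρ1, hδ, hexp⟩ := exp_primes hr c u F hSV hcn hv hinj D d b hd ε hε hε1
  set η : ℝ := min (min (ρ / 8) δ) (min (ε / 8) (1 / 8)) with hη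
  have hη0 : 0 < η := lt_min (lt_min (by positivity) hδ) (lt_min (by positivity) (by norm_num))
  have hηρ : η ≤ ρ / 8 := (min_le_left _ _).trans (min_le_left _ _)
  have hηδ : η ≤ δ := (min_le_left _ _).trans (min_le_right _ _)
  have hηε : η ≤ ε / 8 := (min_le_right _ _).trans (min_le_left _ _)
  set ι : ℝ := min (ρ / 8) (ε / 8) with hι
  have hι0 : 0 < ι := lt_min (by positivity) (by positivity)
  have hι1 : ι ≤ ρ / 8 := min_le_left _ _
  have hι2 : ι ≤ ε / 8 := min_le_right _ _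
  obtain ⟨κ, hκ, hcrit⟩ := crit_scaledJ r hr η hη0 (by linarith)
  refine ⟨κ, δ, hκ, hδ, ?_⟩
  filter_upwards [hexp, hcrit, card_primes d hd b hb ε ι hε (by linarith) hι0,
    eventually_ge_atTop (4 : ℝ), ev_pow (1 - ρ) (1 - ι - η) 16 (by linarith),
    ev_pow (-η) 0 4 (by linarith), ev_pow (1 - ε) (1 - ι - η) 2 (by linarith)]
    with Z hex hcr hcard hZ4 hp1 hp2 hp3
  intro α P hα hPD hsize
  rw [Real.rpow_zero] at hp2
  have hZ0 : 0 < Z := by linarith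
  have hZ1 : 1 ≤ Z := by linarith
  set Q : Finset ℕ := (Ioc ⌊Z⌋₊ ⌊(1 + ε) * Z⌋₊).filter (fun p => p.Prime ∧ p ≡ b [MOD d]) with hQ
  have hQpos : (0 : ℝ) < Q.card := lt_of_lt_of_le (by positivity) hcard
  have hQmem : ∀ p ∈ Q, p.Prime ∧ p ≡ b [MOD d] ∧ Z < p ∧ (p : ℝ) ≤ (1 + ε) * Z := by
    intro p hp
    rw [hQ, Finset.mem_filter, Finset.mem_Ioc] at hp
    refine ⟨hp.2.1, hp.2.2, ?_, ?_⟩
    · exact (Nat.floor_lt hZ0.le).mp hp.1.1
    · have h1 : (p : ℝ) ≤ (⌊(1 + ε) * Z⌋₊ : ℕ) := by exact_mod_cast hp.1.2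
      exact h1.trans (Nat.floor_le (by positivity))
  have hm01 : ⌊Z⌋₊ < ⌊(1 + ε) * Z⌋₊ := by
    have hQne : Q.Nonempty := by
      rw [← Finset.card_pos]
      exact_mod_cast hQpos
    obtain ⟨p, hp⟩ := hQne
    rw [hQ, Finset.mem_filter, Finset.mem_Ioc] at hp
    omega
  set a : ℕ → Fin r → ℝ := fun p j => α j * F j 0 p + (P j).eval (p : ℝ) with ha
  -- the sums over `Q`
  have hsumQ : ∀ q : ℕ, 1 ≤ q → (q : ℝ) ≤ Z ^ η → ∀ h : Fin r → ℤ, h ≠ 0 →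
      (∀ j, |(h j : ℝ)| ≤ Z ^ η) →
      ‖∑ p ∈ Q, e (∑ j, (h j : ℝ) * (a p j / q))‖ ≤ 2 * Z ^ (1 - ρ) := by
    intro q hq hqZ h hh hhZ
    have hmono : Z ^ η ≤ Z ^ δ := Real.rpow_le_rpow_of_exponent_le hZ1 hηδ
    have h1 := hex α h q (∑ j, Polynomial.C ((h j : ℝ) / q) * P j) hα hq (hqZ.trans hmono) hh
      (fun j => (hhZ j).trans hmono)
      (Polynomial.natDegree_sum_le_of_forall_le _ _ (fun j _ =>
        (Polynomial.natDegree_C_mul_le _ _).trans (hPD j))) hm01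
    refine le_trans (le_of_eq ?_) h1
    congr 1
    refine sum_congr rfl fun p _ => ?_
    congr 1
    rw [Polynomial.eval_finset_sum, ← sum_add_distrib]
    refine sum_congr rfl fun j _ => ?_
    rw [Polynomial.eval_mul, Polynomial.eval_C, ha]
    ring
  set G : Finset ℕ := Q.filter (fun p => ∀ j, ∀ q : ℕ, q.Prime → κ * ff Z < |(q : ℝ) - a p j|)
    with hG
  have hGQ : G ⊆ Q := filter_subset _ _
  have hz0 : 0 < Z ^ (-η) := by positivity
  have hkey : (Q.card : ℝ) * Z ^ (-η) / 2 ≤ G.card := by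
    by_contra hlt
    rw [not_le] at hlt
    set s : Finset ℕ := Q \ G with hs
    have hscard : (s.card : ℝ) = Q.card - G.card := by
      rw [hs, card_sdiff_of_subset hGQ, Nat.cast_sub (card_le_card hGQ)]
    have hsbig : 3 / 4 * (Q.card : ℝ) ≤ s.card := by
      rw [hscard]
      nlinarith
    have hE8 : 2 * Z ^ (1 - ρ) ≤ (Q.card : ℝ) * Z ^ (-η) / 8 := by
      have h2 : Z ^ (1 - ι - η) ≤ (Q.card : ℝ) * Z ^ (-η) := by
        calc Z ^ (1 - ι - η) = Z ^ (1 - ι) * Z ^ (-η) := by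
              rw [← Real.rpow_add hZ0]
              congr 1
          _ ≤ _ := by gcongr
      linarith
    obtain ⟨p, hp, hp2'⟩ := hcr ℕ s a (by
        rw [← Finset.card_pos]
        have : (0 : ℝ) < s.card := by linarith
        exact_mod_cast this) (by
        intro p hp j
        have hpQ := hQmem p (Finset.mem_sdiff.mp hp).1
        refine le_trans ?_ (hsize j p hpQ.2.2.1 hpQ.2.2.2)
        exact Real.rpow_le_rpow_of_exponent_le hZ1 (by linarith)) (by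
        intro q hq hqZ h hh hhZ
        have h1 := hsumQ q hq hqZ h hh hhZ
        have h2 : ∑ p ∈ s, e (∑ j, (h j : ℝ) * (a p j / q)) =
            ∑ p ∈ Q, e (∑ j, (h j : ℝ) * (a p j / q)) -
            ∑ p ∈ G, e (∑ j, (h j : ℝ) * (a p j / q)) := by
          rw [hs, ← sum_sdiff hGQ]
          ring
        rw [h2]
        have h3 : ‖∑ p ∈ G, e (∑ j, (h j : ℝ) * (a p j / q))‖ ≤ G.card := by
          refine (norm_sum_le _ _).trans ?_
          simp only [norm_e, sum_const, nsmul_eq_mul, mul_one]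
          exact le_rfl
        have h4 : 3 / 4 * (Q.card : ℝ) * Z ^ (-η) ≤ s.card * Z ^ (-η) := by gcongr
        calc _ ≤ _ := norm_sub_le _ _
          _ ≤ 2 * Z ^ (1 - ρ) + G.card := add_le_add h1 h3
          _ ≤ _ := by nlinarith)
    rw [hs] at hp
    have hp3' := Finset.mem_sdiff.mp hp
    apply hp3'.2
    rw [hG]
    exact Finset.mem_filter.mpr ⟨hp3'.1, hp2'⟩
  refine ⟨G, ?_, ?_⟩
  · have h2 : Z ^ (1 - ι - η) ≤ (Q.card : ℝ) * Z ^ (-η) := by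
      calc Z ^ (1 - ι - η) = Z ^ (1 - ι) * Z ^ (-η) := by
            rw [← Real.rpow_add hZ0]
            congr 1
        _ ≤ _ := by gcongr
    linarith
  · intro p hp
    rw [hG, mem_filter] at hp
    obtain ⟨h1, h2, h3, h4⟩ := hQmem p hp.1
    exact ⟨h1, h2, h3, h4, hp.2⟩

end Pool.Agent.N542.PQ
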