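import Pool.Agent.N542.PQ.Van
import Pool.Agent.H373R2.T7.Vau

set_option autoImplicit false
set_option maxHeartbeats 4000000

/-! The phases of the sums of type I and type II. -/

namespace Pool.Agent.N542.PQ

open Finset
open Pool.Agent.H469R2.NK (e norm_e e_add conj_e norm_sum_neg e_zero)
open Pool.Agent.TH915.PW (Hy)

/-- A phase `G 0` with derivatives `G m`, of size `Φ` on `[N, 4 N]` as seen by its derivatives of
order `Q + 1`, `Q + 2`, `Q + 3`. -/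
structure PD (Q : ℕ) (N Φ c₁ c₂ σ τ : ℝ) (G : ℕ → ℝ → ℝ) : Prop where
  der : ∀ m ≤ Q + 2, ∀ t, N ≤ t → t ≤ 4 * N → HasDerivAt (G m) (G (m + 1) t) t
  b1 : ∀ t, N ≤ t → t ≤ 4 * N → c₁ * Φ ≤ σ * (t ^ (Q + 1) * G (Q + 1) t) ∧
    σ * (t ^ (Q + 1) * G (Q + 1) t) ≤ c₂ * Φ
  b2 : ∀ t, N ≤ t → t ≤ 4 * N →
    c₁ * Φ ≤ τ * (((Q + 1 : ℕ) : ℝ) * (t ^ (Q + 1) * G (Q + 1) t) + t ^ (Q + 2) * G (Q + 2) t) ∧
    τ * (((Q + 1 : ℕ) : ℝ) * (t ^ (Q + 1) * G (Q + 1) t) + t ^ (Q + 2) * G (Q + 2) t) ≤ c₂ * Φ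
  b3 : ∀ t, N ≤ t → t ≤ 4 * N → σ * (t ^ (Q + 2) * G (Q + 2) t) ≤ 0
  b4 : ∀ t, N ≤ t → t ≤ 4 * N →
    τ * (((Q + 2 : ℕ) : ℝ) * (t ^ (Q + 2) * G (Q + 2) t) + t ^ (Q + 3) * G (Q + 3) t) ≤ 0

variable {Q : ℕ} {N Φ c₁ c₂ σ τ : ℝ} {G : ℕ → ℝ → ℝ}

/-- type I -/
lemma hyI (h : PD Q N Φ c₁ c₂ σ τ G) (hc₁ : 0 < c₁) (hΦ : 0 < Φ) (M A B : ℝ) (m : ℕ)
    (hM : 0 < M) (hMA : M ≤ A) (hB3 : B ≤ 3 * M) (h1 : N ≤ m * A) (h2 : m * B ≤ 4 * N)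
    (hc₂ : c₁ ≤ c₂) :
    Hy Q A B (c₁ / (2 * 3 ^ (Q + 1)) * Φ / M ^ (Q + 1)) (c₂ * Φ / M ^ (Q + 1))
      (fun j x => σ * ((m : ℝ) ^ j * G j (m * x))) := by
  have hm0 : (0 : ℝ) ≤ m := Nat.cast_nonneg m
  have hin : ∀ x ∈ Set.Icc A B, N ≤ m * x ∧ m * x ≤ 4 * N := by
    intro x hx
    exact ⟨h1.trans (by gcongr; exact hx.1), le_trans (by gcongr; exact hx.2) h2⟩
  have e1 : ∀ (j : ℕ) (x : ℝ), 0 < x → σ * ((m : ℝ) ^ j * G j (m * x)) =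
      (σ * (((m : ℝ) * x) ^ j * G j (m * x))) / x ^ j := by
    intro j x hx
    rw [mul_pow]
    field_simp
  have hx0 : ∀ x ∈ Set.Icc A B, 0 < x := fun x hx => lt_of_lt_of_le hM (hMA.trans hx.1)
  have hxj : ∀ x ∈ Set.Icc A B, x ^ (Q + 1) ≤ 3 ^ (Q + 1) * M ^ (Q + 1) := by
    intro x hx
    calc x ^ (Q + 1) ≤ (3 * M) ^ (Q + 1) := pow_le_pow_left₀ (hx0 x hx).le (hx.2.trans hB3) _
      _ = _ := mul_pow _ _ _
  have hxj2 : ∀ x ∈ Set.Icc A B, M ^ (Q + 1) ≤ x ^ (Q + 1) := fun x hx =>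
    pow_le_pow_left₀ hM.le (hMA.trans hx.1) _
  constructor
  · intro j hj x hx
    obtain ⟨g1, g2⟩ := hin x hx
    have h3 := h.der j (by omega) (m * x) g1 g2
    have h4 : HasDerivAt (fun x : ℝ => (m : ℝ) * x) m x := by
      simpa using (hasDerivAt_id x).const_mul (m : ℝ)
    have h6 := ((h3.comp x h4).const_mul ((m : ℝ) ^ j)).const_mul σ
    refine h6.congr_deriv ?_
    rw [pow_succ]
    ring
  · intro x hx
    obtain ⟨g1, g2⟩ := hin x hx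
    have h3 := (h.b1 _ g1 g2).1
    have hx1 := hx0 x hx
    rw [e1 _ _ hx1, div_le_div_iff₀ (by positivity) (by positivity)]
    have hMp : 0 < M ^ (Q + 1) := by positivity
    calc c₁ / (2 * 3 ^ (Q + 1)) * Φ * x ^ (Q + 1)
        ≤ c₁ / (2 * 3 ^ (Q + 1)) * Φ * (3 ^ (Q + 1) * M ^ (Q + 1)) := by
          have := hxj x hx
          gcongr
      _ = (c₁ * Φ) * M ^ (Q + 1) / 2 := by field_simp
      _ ≤ (c₁ * Φ) * M ^ (Q + 1) := by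
        have : 0 < (c₁ * Φ) * M ^ (Q + 1) := by positivity
        linarith
      _ ≤ _ := by gcongr
  · intro x hx
    obtain ⟨g1, g2⟩ := hin x hx
    have h3 := (h.b1 _ g1 g2).2
    have hx1 := hx0 x hx
    rw [e1 _ _ hx1, div_le_div_iff₀ (by positivity) (by positivity)]
    have hc₂0 : 0 < c₂ := by linarith
    have := hxj2 x hx
    calc _ ≤ c₂ * Φ * M ^ (Q + 1) := by gcongr
      _ ≤ _ := by gcongr
  · intro x hx
    obtain ⟨g1, g2⟩ := hin x hx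
    have h3 := h.b3 _ g1 g2
    have hx1 := hx0 x hx
    rw [e1 _ _ hx1]
    exact div_nonpos_of_nonpos_of_nonneg h3 (by positivity)

/-- the mean value theorem for `y ^ j G j y` -/
lemma mvt (h : PD Q N Φ c₁ c₂ σ τ G) (j : ℕ) (hj0 : 1 ≤ j) (hj : j ≤ Q + 2) (l l' x : ℝ)
    (hl' : 0 < l') (hll : l' < l) (hx : 0 < x) (h1 : N ≤ l' * x) (h2 : l * x ≤ 4 * N) :
    ∃ ξ, l' * x < ξ ∧ ξ < l * x ∧ N ≤ ξ ∧ ξ ≤ 4 * N ∧
      l ^ j * G j (l * x) - l' ^ j * G j (l' * x) =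
        (l - l') * (x / ξ) * ((j : ℝ) * (ξ ^ j * G j ξ) + ξ ^ (j + 1) * G (j + 1) ξ) / x ^ j := by
  have hlx : l' * x < l * x := by gcongr
  set H : ℝ → ℝ := fun y => y ^ j * G j y with hH
  have hGd : ∀ y ∈ Set.Icc (l' * x) (l * x),
      HasDerivAt H (((j : ℝ) * (y ^ j * G j y) + y ^ (j + 1) * G (j + 1) y) / y) y := by
    intro y hy
    have hy0 : 0 < y := lt_of_lt_of_le (by positivity) hy.1
    have h3 := h.der j hj y (h1.trans hy.1) (hy.2.trans h2)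
    refine ((hasDerivAt_pow j y).mul h3).congr_deriv ?_
    obtain ⟨k, rfl⟩ : ∃ k, j = k + 1 := ⟨j - 1, by omega⟩
    rw [Nat.add_sub_cancel]
    field_simp
    ring
  obtain ⟨ξ, hξ, hξ2⟩ := exists_hasDerivAt_eq_slope H _ hlx
    (fun y hy => (hGd y hy).continuousAt.continuousWithinAt)
    (fun y hy => hGd y ⟨hy.1.le, hy.2.le⟩)
  have hξ0 : 0 < ξ := lt_trans (by positivity) hξ.1
  refine ⟨ξ, hξ.1, hξ.2, h1.trans hξ.1.le, hξ.2.le.trans h2, ?_⟩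
  have hGdiff : H (l * x) - H (l' * x) =
      ((j : ℝ) * (ξ ^ j * G j ξ) + ξ ^ (j + 1) * G (j + 1) ξ) / ξ * ((l - l') * x) := by
    rw [hξ2, ← sub_mul]
    have : (l - l') * x ≠ 0 := by
      rw [sub_mul]
      linarith
    rw [div_mul_cancel₀ _ this]
  have e2 : l ^ j * G j (l * x) - l' ^ j * G j (l' * x) = (H (l * x) - H (l' * x)) / x ^ j := by
    simp only [hH]
    rw [mul_pow, mul_pow]
    field_simp
  rw [e2, hGdiff]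
  ring

/-- type II -/
lemma hyII (h : PD Q N Φ c₁ c₂ σ τ G) (hN : 0 < N) (hc₁ : 0 < c₁) (hc₂ : c₁ ≤ c₂) (hΦ : 0 < Φ)
    (M A B : ℝ) (L l l' : ℕ) (hM : 0 < M) (hMA : M ≤ A) (hAB : A ≤ B) (hB3 : B ≤ 3 * M)
    (hL : 1 ≤ L) (hl : l ≤ 2 * L) (hl' : L ≤ l') (hll : l' < l)
    (h1 : N ≤ l' * A) (h2 : l * B ≤ 4 * N) :
    Hy Q A B (c₁ / (2 * 3 ^ (Q + 1)) * (Φ * (((l : ℝ) - l') / L)) / M ^ (Q + 1))
      (c₂ * (Φ * (((l : ℝ) - l') / L)) / M ^ (Q + 1))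
      (fun j x => τ * ((l : ℝ) ^ j * G j (l * x) - (l' : ℝ) ^ j * G j (l' * x))) := by
  have hL0 : (0 : ℝ) < L := by exact_mod_cast hL
  have hl'0 : (0 : ℝ) < l' := by exact_mod_cast (by omega : 0 < l')
  have hl0 : (0 : ℝ) < l := by exact_mod_cast (by omega : 0 < l)
  have hllr : (l' : ℝ) < l := by exact_mod_cast hll
  have hl2 : (l : ℝ) ≤ 2 * L := by exact_mod_cast hl
  have hl2' : (L : ℝ) ≤ l' := by exact_mod_cast hl'
  have hA0 : 0 < A := lt_of_lt_of_le hM hMA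
  have hd : 0 < (l : ℝ) - l' := by linarith
  have hin : ∀ x ∈ Set.Icc A B, 0 < x ∧ N ≤ l' * x ∧ l * x ≤ 4 * N ∧ l' * x ≤ l * x := by
    intro x hx
    have hx0 : 0 < x := lt_of_lt_of_le hA0 hx.1
    refine ⟨hx0, h1.trans (by gcongr; exact hx.1), le_trans (by gcongr; exact hx.2) h2, ?_⟩
    gcongr
  have hxj : ∀ x ∈ Set.Icc A B, x ^ (Q + 1) ≤ 3 ^ (Q + 1) * M ^ (Q + 1) := by
    intro x hx
    calc x ^ (Q + 1) ≤ (3 * M) ^ (Q + 1) := pow_le_pow_left₀ (hin x hx).1.le (hx.2.trans hB3) _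
      _ = _ := mul_pow _ _ _
  have hxj2 : ∀ x ∈ Set.Icc A B, M ^ (Q + 1) ≤ x ^ (Q + 1) := fun x hx =>
    pow_le_pow_left₀ hM.le (hMA.trans hx.1) _
  have hmain : ∀ x ∈ Set.Icc A B, ∃ W : ℝ, ∃ w : ℝ, 1 / (2 * L) ≤ w ∧ w ≤ 1 / L ∧ c₁ * Φ ≤ W ∧
      W ≤ c₂ * Φ ∧ τ * ((l : ℝ) ^ (Q + 1) * G (Q + 1) (l * x) -
        (l' : ℝ) ^ (Q + 1) * G (Q + 1) (l' * x)) = ((l : ℝ) - l') * w * W / x ^ (Q + 1) := by
    intro x hx
    obtain ⟨hx0, g1, g2, g3⟩ := hin x hx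
    obtain ⟨ξ, a1, a2, a3, a4, a5⟩ := mvt h (Q + 1) (by omega) (by omega) l l' x hl'0 hllr hx0
      g1 g2
    obtain ⟨b1, b2⟩ := h.b2 ξ a3 a4
    have hξ0 : 0 < ξ := lt_of_lt_of_le hN a3
    refine ⟨_, x / ξ, ?_, ?_, b1, b2, ?_⟩
    · rw [div_le_div_iff₀ (by positivity) hξ0, one_mul]
      calc ξ ≤ l * x := a2.le
        _ ≤ (2 * L) * x := by gcongr
        _ = _ := by ring
    · rw [div_le_div_iff₀ hξ0 hL0, one_mul]
      calc x * L ≤ x * l' := by gcongr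
        _ = l' * x := by ring
        _ ≤ ξ := a1.le
    · rw [a5]
      ring
  constructor
  · intro j hj x hx
    obtain ⟨hx0, g1, g2, g3⟩ := hin x hx
    have hder : ∀ k : ℕ, N ≤ k * x → (k : ℝ) * x ≤ 4 * N → HasDerivAt (fun x : ℝ =>
        (k : ℝ) ^ j * G j (k * x)) ((k : ℝ) ^ (j + 1) * G (j + 1) (k * x)) x := by
      intro k k1 k2
      have h3 := h.der j (by omega) (k * x) k1 k2
      have h4 : HasDerivAt (fun x : ℝ => (k : ℝ) * x) k x := by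
        simpa using (hasDerivAt_id x).const_mul (k : ℝ)
      refine ((h3.comp x h4).const_mul ((k : ℝ) ^ j)).congr_deriv ?_
      rw [pow_succ]
      ring
    exact ((hder l (g1.trans g3) g2).sub (hder l' g1 (g3.trans g2))).const_mul τ
  · intro x hx
    obtain ⟨W, w, w1, w2, w3, w4, w5⟩ := hmain x hx
    obtain ⟨hx0, _⟩ := hin x hx
    rw [w5, div_le_div_iff₀ (by positivity) (by positivity)]
    have := hxj x hx
    have hcΦ : 0 < c₁ * Φ := by positivity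
    have hw0 : 0 ≤ w := le_trans (by positivity) w1
    calc c₁ / (2 * 3 ^ (Q + 1)) * (Φ * (((l : ℝ) - l') / L)) * x ^ (Q + 1)
        ≤ c₁ / (2 * 3 ^ (Q + 1)) * (Φ * (((l : ℝ) - l') / L)) * (3 ^ (Q + 1) * M ^ (Q + 1)) := by
          gcongr
      _ = ((l : ℝ) - l') * (1 / (2 * L)) * (c₁ * Φ) * M ^ (Q + 1) := by field_simp
      _ ≤ _ := by gcongr
  · intro x hx
    obtain ⟨W, w, w1, w2, w3, w4, w5⟩ := hmain x hx
    obtain ⟨hx0, _⟩ := hin x hx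
    rw [w5, div_le_div_iff₀ (by positivity) (by positivity)]
    have := hxj2 x hx
    have hc₂0 : 0 < c₂ := by linarith
    have hcΦ : 0 < c₁ * Φ := by positivity
    have hW : 0 < W := by linarith
    calc ((l : ℝ) - l') * w * W * M ^ (Q + 1)
        ≤ ((l : ℝ) - l') * (1 / L) * (c₂ * Φ) * x ^ (Q + 1) := by gcongr
      _ = _ := by ring
  · intro x hx
    obtain ⟨hx0, g1, g2, g3⟩ := hin x hx
    obtain ⟨ξ, a1, a2, a3, a4, a5⟩ := mvt h (Q + 2) (by omega) (by omega) l l' x hl'0 hllr hx0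
      g1 g2
    have b4 := h.b4 ξ a3 a4
    have hξ0 : 0 < ξ := lt_of_lt_of_le hN a3
    rw [a5, ← mul_div_assoc]
    apply div_nonpos_of_nonpos_of_nonneg _ (by positivity)
    have e1 : τ * (((l : ℝ) - l') * (x / ξ) * (((Q + 2 : ℕ) : ℝ) * (ξ ^ (Q + 2) * G (Q + 2) ξ) +
        ξ ^ (Q + 2 + 1) * G (Q + 2 + 1) ξ)) = (((l : ℝ) - l') * (x / ξ)) *
        (τ * (((Q + 2 : ℕ) : ℝ) * (ξ ^ (Q + 2) * G (Q + 2) ξ) + ξ ^ (Q + 3) * G (Q + 3) ξ)) := by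
      ring
    rw [e1]
    exact mul_nonpos_of_nonneg_of_nonpos (by positivity) b4

end Pool.Agent.N542.PQ
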