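import Pool.Agent.N542.PP.SV
import Pool.Agent.N542.PQ.Phases

set_option autoImplicit false
set_option maxHeartbeats 4000000

/-! Smoothly varying functions of an arbitrary index which is not a natural number, and sums of them
with polynomials. -/

namespace Pool.Agent.N542.PQ

open Finset Filter Topology
open Pool.Agent.N542.PP (SV fall fall_succ fall_ne)

/-- growth of a smoothly varying function -/
lemma growth {c : ℝ} {F : ℕ → ℝ → ℝ} (h : SV c F) (τ : ℝ) (hτ : 0 < τ) : ∃ T : ℝ, 1 ≤ T ∧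
    (∀ x y, T ≤ x → x ≤ y → 0 < F 0 x ∧ F 0 y / y ^ (c + τ) ≤ F 0 x / x ^ (c + τ) ∧
      F 0 x / x ^ (c - τ) ≤ F 0 y / y ^ (c - τ)) := by
  have h1 : ∀ᶠ t in atTop, t ^ 1 * F 1 t / F 0 t < c + τ := by
    have := h.lim 1
    exact this.eventually_lt_const (by simp [fall]; linarith)
  have h2 : ∀ᶠ t in atTop, c - τ < t ^ 1 * F 1 t / F 0 t := by
    have := h.lim 1
    exact this.eventually_const_lt (by simp [fall]; linarith)
  obtain ⟨T, hT⟩ := eventually_atTop.mp (h1.and (h2.and (h.pos.and (h.der 0))))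
  refine ⟨max T 1, le_max_right _ _, ?_⟩
  have hT1 : ∀ t, max T 1 ≤ t → 1 ≤ t ∧ 0 < F 0 t ∧ t * F 1 t ≤ (c + τ) * F 0 t ∧
      (c - τ) * F 0 t ≤ t * F 1 t ∧ HasDerivAt (F 0) (F 1 t) t := by
    intro t ht
    obtain ⟨a1, a2, a3, a4⟩ := hT t ((le_max_left _ _).trans ht)
    rw [pow_one, div_lt_iff₀ a3] at a1
    rw [pow_one, lt_div_iff₀ a3] at a2
    exact ⟨(le_max_right _ _).trans ht, a3, a1.le, a2.le, a4⟩
  have hder : ∀ a t : ℝ, max T 1 ≤ t → HasDerivAt (fun t => F 0 t / t ^ a)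
      (t ^ (a - 1) * (t * F 1 t - a * F 0 t) / (t ^ a) ^ 2) t := by
    intro a t ht
    obtain ⟨b1, b2, b3, b4, b5⟩ := hT1 t ht
    have ht0 : 0 < t := by linarith
    refine (b5.div (Real.hasDerivAt_rpow_const (p := a) (Or.inl (by positivity)))
      (by positivity)).congr_deriv ?_
    congr 1
    have e1 : t ^ a = t ^ (a - 1) * t := by
      rw [← Real.rpow_add_one (by positivity)]
      congr 1
      ring
    rw [e1]
    ring
  have m2 : AntitoneOn (fun t => F 0 t / t ^ (c + τ)) (Set.Ici (max T 1)) := by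
    apply antitoneOn_of_deriv_nonpos (convex_Ici _)
    · intro t ht
      exact (hder _ t ht).continuousAt.continuousWithinAt
    · intro t ht
      rw [interior_Ici] at ht
      exact (hder _ t ht.le).differentiableAt.differentiableWithinAt
    · intro t ht
      rw [interior_Ici] at ht
      obtain ⟨b1, b2, b3, b4, b5⟩ := hT1 t ht.le
      rw [(hder _ t ht.le).deriv]
      apply div_nonpos_of_nonpos_of_nonneg _ (by positivity)
      apply mul_nonpos_of_nonneg_of_nonpos (by positivity)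
      linarith
  have m3 : MonotoneOn (fun t => F 0 t / t ^ (c - τ)) (Set.Ici (max T 1)) := by
    apply monotoneOn_of_deriv_nonneg (convex_Ici _)
    · intro t ht
      exact (hder _ t ht).continuousAt.continuousWithinAt
    · intro t ht
      rw [interior_Ici] at ht
      exact (hder _ t ht.le).differentiableAt.differentiableWithinAt
    · intro t ht
      rw [interior_Ici] at ht
      obtain ⟨b1, b2, b3, b4, b5⟩ := hT1 t ht.le
      rw [(hder _ t ht.le).deriv]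
      apply div_nonneg _ (by positivity)
      apply mul_nonneg (by positivity)
      linarith
  intro x y hx hxy
  exact ⟨(hT1 x hx).2.1, m2 hx (hx.trans hxy) hxy, m3 hx (hx.trans hxy) hxy⟩

/-- power bounds -/
lemma power_bounds {c : ℝ} {F : ℕ → ℝ → ℝ} (h : SV c F) (τ : ℝ) (hτ : 0 < τ) :
    ∀ᶠ y in atTop, y ^ (c - τ) ≤ F 0 y ∧ F 0 y ≤ y ^ (c + τ) := by
  obtain ⟨T, hT1, hT⟩ := growth h (τ / 2) (by positivity)
  have hT0 : 0 < T := by linarith
  have hF : 0 < F 0 T := (hT T T le_rfl le_rfl).1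
  set b₁ : ℝ := F 0 T / T ^ (c + τ / 2) with hb₁
  set b₂ : ℝ := F 0 T / T ^ (c - τ / 2) with hb₂
  have hb₁0 : 0 < b₁ := by positivity
  have hb₂0 : 0 < b₂ := by positivity
  have e1 := tendsto_rpow_atTop (show 0 < τ / 2 by positivity)
  filter_upwards [eventually_ge_atTop T, e1.eventually_ge_atTop b₁, e1.eventually_ge_atTop (1 / b₂)]
    with y hy h1 h2
  obtain ⟨g1, g2, g3⟩ := hT T y le_rfl hy
  have hy0 : 0 < y := by linarith
  rw [← hb₁, div_le_iff₀ (by positivity)] at g2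
  rw [← hb₂, le_div_iff₀ (by positivity)] at g3
  constructor
  · rw [div_le_iff₀ hb₂0] at h2
    calc y ^ (c - τ) = 1 * y ^ (c - τ) := (one_mul _).symm
      _ ≤ (y ^ (τ / 2) * b₂) * y ^ (c - τ) := by gcongr
      _ = b₂ * (y ^ (τ / 2) * y ^ (c - τ)) := by ring
      _ = b₂ * y ^ (c - τ / 2) := by
        rw [← Real.rpow_add hy0]
        congr 2
        ring
      _ ≤ _ := g3
  · calc F 0 y ≤ b₁ * y ^ (c + τ / 2) := g2
      _ ≤ y ^ (τ / 2) * y ^ (c + τ / 2) := by gcongr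
      _ = _ := by
        rw [← Real.rpow_add hy0]
        congr 1
        ring

/-- bounds for the derivatives of high order of a smoothly varying function -/
def HB (Q : ℕ) (c₁ c₂ T σ τ : ℝ) (F : ℕ → ℝ → ℝ) : Prop :=
  ∀ N t : ℝ, T ≤ N → N ≤ t → t ≤ 4 * N → 0 < F 0 N ∧
    (∀ m ≤ Q + 2, HasDerivAt (F m) (F (m + 1) t) t) ∧
    (∀ m, Q + 1 ≤ m → m ≤ Q + 3 → |t ^ m * F m t| ≤ c₂ * F 0 N) ∧
    c₁ * F 0 N ≤ σ * (t ^ (Q + 1) * F (Q + 1) t) ∧
    c₁ * F 0 N ≤ τ * (((Q + 1 : ℕ) : ℝ) * (t ^ (Q + 1) * F (Q + 1) t) +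
      t ^ (Q + 2) * F (Q + 2) t) ∧
    σ * (t ^ (Q + 2) * F (Q + 2) t) ≤ -(c₁ * F 0 N) ∧
    τ * (((Q + 2 : ℕ) : ℝ) * (t ^ (Q + 2) * F (Q + 2) t) + t ^ (Q + 3) * F (Q + 3) t) ≤
      -(c₁ * F 0 N)

lemma HB.mono {Q : ℕ} {c₁ c₂ T σ τ c₁' c₂' T' : ℝ} {F : ℕ → ℝ → ℝ} (h : HB Q c₁ c₂ T σ τ F)
    (h1 : c₁' ≤ c₁) (h2 : c₂ ≤ c₂') (h3 : T ≤ T') : HB Q c₁' c₂' T' σ τ F := by
  intro N t hN hNt ht
  obtain ⟨a1, a2, a3, a4, a5, a6, a7⟩ := h N t (h3.trans hN) hNt ht
  have e1 : c₁' * F 0 N ≤ c₁ * F 0 N := by gcongr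
  have e2 : c₂ * F 0 N ≤ c₂' * F 0 N := by gcongr
  exact ⟨a1, a2, fun m g1 g2 => (a3 m g1 g2).trans e2, by linarith, by linarith, by linarith,
    by linarith⟩

lemma sgn_exists (x : ℝ) (hx : x ≠ 0) : ∃ s : ℝ, (s = 1 ∨ s = -1) ∧ s * x = |x| := by
  rcases lt_or_gt_of_ne hx with h | h
  · exact ⟨-1, Or.inr rfl, by rw [abs_of_neg h]; ring⟩
  · exact ⟨1, Or.inl rfl, by rw [abs_of_pos h]; ring⟩

theorem hb_exists {c : ℝ} {F : ℕ → ℝ → ℝ} (h : SV c F) (hcn : ∀ n : ℕ, c ≠ n)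
    (Q : ℕ) (hQ : c < Q + 1) : ∃ c₁ c₂ T σ τ : ℝ, 0 < c₁ ∧ c₁ ≤ c₂ ∧ 1 ≤ T ∧
    (σ = 1 ∨ σ = -1) ∧ (τ = 1 ∨ τ = -1) ∧ HB Q c₁ c₂ T σ τ F := by
  have hc0 : c ≠ 0 := by simpa using hcn 0
  obtain ⟨T₁, hT₁1, hgr⟩ := growth h 1 one_pos
  set f1 : ℝ := fall c (Q + 1) with hf1
  set f2 : ℝ := fall c (Q + 2) with hf2
  set f3 : ℝ := fall c (Q + 3) with hf3
  have n1 : f1 ≠ 0 := fall_ne c hcn _
  have e2 : f2 = f1 * (c - (Q + 1 : ℕ)) := fall_succ c (Q + 1)
  have e3 : f3 = f2 * (c - (Q + 2 : ℕ)) := fall_succ c (Q + 2)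
  have hneg : c - ((Q + 1 : ℕ) : ℝ) < 0 := by push_cast; linarith
  have n2 : f2 ≠ 0 := fall_ne c hcn _
  obtain ⟨σ, hσ, hσ1⟩ := sgn_exists f1 n1
  obtain ⟨τ, hτ, hτ1⟩ := sgn_exists (c * f1) (mul_ne_zero hc0 n1)
  have hσ2 : σ * f2 = -|f2| := by
    rw [e2, ← mul_assoc, hσ1, abs_mul, abs_of_neg hneg]
    ring
  have hτ2 : τ * (c * f2) = -|c * f2| := by
    rw [e2, ← mul_assoc c, abs_mul (c * f1), abs_of_neg hneg, ← mul_assoc, hτ1]
    ring
  set κ : ℝ := min (min |f1| |f2|) (min |c * f1| |c * f2|) with hκ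
  have hκ0 : 0 < κ := by
    refine lt_min (lt_min (abs_pos.mpr n1) (abs_pos.mpr n2)) (lt_min ?_ ?_)
    · exact abs_pos.mpr (mul_ne_zero hc0 n1)
    · exact abs_pos.mpr (mul_ne_zero hc0 n2)
  have k1 : κ ≤ |f1| := (min_le_left _ _).trans (min_le_left _ _)
  have k2 : κ ≤ |f2| := (min_le_left _ _).trans (min_le_right _ _)
  have k3 : κ ≤ |c * f1| := (min_le_right _ _).trans (min_le_left _ _)
  have k4 : κ ≤ |c * f2| := (min_le_right _ _).trans (min_le_right _ _)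
  set K : ℝ := |f1| + |f2| + |f3| with hK
  have hAlim : ∀ m : ℕ, ∀ᶠ t in atTop, |t ^ m * F m t / F 0 t - fall c m| < κ / 2 := by
    intro m
    have := Metric.tendsto_nhds.mp (h.lim m) (κ / 2) (by positivity)
    filter_upwards [this] with t ht
    exact ht
  have hBlim : ∀ m : ℕ, ∀ᶠ t in atTop, |(m * (t ^ m * F m t / F 0 t) +
      t ^ (m + 1) * F (m + 1) t / F 0 t) - c * fall c m| < κ / 2 := by
    intro m
    have h1 := ((h.lim m).const_mul (m : ℝ)).add (h.lim (m + 1))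
    have h2 : m * fall c m + fall c (m + 1) = c * fall c m := by
      rw [fall_succ]
      ring
    rw [h2] at h1
    have := Metric.tendsto_nhds.mp h1 (κ / 2) (by positivity)
    filter_upwards [this] with t ht
    exact ht
  obtain ⟨T₂, hT₂⟩ := eventually_atTop.mp ((hAlim (Q + 1)).and ((hAlim (Q + 2)).and
    ((hAlim (Q + 3)).and ((hBlim (Q + 1)).and ((hBlim (Q + 2)).and
    (Pool.Agent.N542.PP.ev_forall_le (Q + 2) (fun m => h.der m)))))))
  set W : ℝ := 4 ^ (|c| + 1) with hW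
  have hW1 : 1 ≤ W := Real.one_le_rpow (by norm_num) (by positivity)
  have hW0 : 0 < W := by linarith
  have hKκ : κ ≤ K := by
    have : 0 ≤ |f2| + |f3| := by positivity
    linarith
  refine ⟨κ / 2 / W, (K + κ) * W, max T₁ T₂, σ, τ, by positivity, ?_,
    hT₁1.trans (le_max_left _ _), hσ, hτ, ?_⟩
  · rw [div_le_iff₀ hW0]
    have h1 : (K + κ) ≤ (K + κ) * W * W := by
      have : 0 ≤ K + κ := by positivity
      nlinarith [mul_le_mul_of_nonneg_left hW1 this, mul_le_mul_of_nonneg_left hW1 (show 0 ≤ (K + κ) * W by positivity)]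
    linarith
  intro N t hN hNt ht
  have hN1 : T₁ ≤ N := (le_max_left _ _).trans hN
  have hN0 : 0 < N := by linarith
  have ht0 : 0 < t := by linarith
  obtain ⟨g1, g2, g3⟩ := hgr N t hN1 hNt
  obtain ⟨g1', _, _⟩ := hgr t t (hN1.trans hNt) le_rfl
  -- `F 0 t` and `F 0 N` are of the same size
  have hq1 : 1 ≤ t / N := by rw [one_le_div hN0]; exact hNt
  have hq4 : t / N ≤ 4 := by rw [div_le_iff₀ hN0]; exact ht
  have hup : F 0 t ≤ W * F 0 N := by
    rw [div_le_iff₀ (by positivity)] at g2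
    calc F 0 t ≤ F 0 N / N ^ (c + 1) * t ^ (c + 1) := g2
      _ = F 0 N * (t / N) ^ (c + 1) := by
        rw [Real.div_rpow ht0.le hN0.le]
        ring
      _ ≤ F 0 N * W := by
        apply mul_le_mul_of_nonneg_left _ g1.le
        calc (t / N) ^ (c + 1) ≤ (t / N) ^ (|c| + 1) :=
              Real.rpow_le_rpow_of_exponent_le hq1 (by linarith [le_abs_self c])
          _ ≤ _ := Real.rpow_le_rpow (by positivity) hq4 (by positivity)
      _ = _ := by ring
  have hdn : F 0 N ≤ W * F 0 t := by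
    rw [div_le_iff₀ (by positivity)] at g3
    calc F 0 N ≤ F 0 t / t ^ (c - 1) * N ^ (c - 1) := g3
      _ = F 0 t * ((t / N) ^ (1 - c)) := by
        rw [Real.div_rpow ht0.le hN0.le, show 1 - c = -(c - 1) by ring, Real.rpow_neg ht0.le,
          Real.rpow_neg hN0.le]
        field_simp
      _ ≤ F 0 t * W := by
        apply mul_le_mul_of_nonneg_left _ g1'.le
        calc (t / N) ^ (1 - c) ≤ (t / N) ^ (|c| + 1) :=
              Real.rpow_le_rpow_of_exponent_le hq1 (by linarith [neg_abs_le c])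
          _ ≤ _ := Real.rpow_le_rpow (by positivity) hq4 (by positivity)
      _ = _ := by ring
  obtain ⟨a1, a2, a3, a4, a5, a6⟩ := hT₂ t ((le_max_right _ _).trans (hN.trans hNt))
  have habs : ∀ m, |t ^ m * F m t / F 0 t - fall c m| < κ / 2 → |fall c m| ≤ K →
      |t ^ m * F m t| ≤ (K + κ) * W * F 0 N := by
    intro m h1 h2
    have h3 : |t ^ m * F m t / F 0 t| ≤ K + κ := by
      calc |t ^ m * F m t / F 0 t| = |(t ^ m * F m t / F 0 t - fall c m) + fall c m| := by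
            congr 1; ring
        _ ≤ |t ^ m * F m t / F 0 t - fall c m| + |fall c m| := abs_add_le _ _
        _ ≤ _ := by linarith
    rw [abs_div, abs_of_pos g1', div_le_iff₀ g1'] at h3
    calc |t ^ m * F m t| ≤ (K + κ) * F 0 t := h3
      _ ≤ (K + κ) * (W * F 0 N) := by
        have : 0 ≤ K + κ := by positivity
        gcongr
      _ = _ := by ring
  have hsab : ∀ (s x y : ℝ), (s = 1 ∨ s = -1) → |x - y| < κ / 2 → |s * x - s * y| < κ / 2 := by
    intro s x y hs h1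
    rw [← mul_sub, abs_mul]
    rcases hs with hs | hs
    · rw [hs]; simpa using h1
    · rw [hs]; simpa using h1
  have hlow : ∀ (s V y : ℝ), (s = 1 ∨ s = -1) → κ ≤ s * y → |V / F 0 t - y| < κ / 2 →
      κ / 2 / W * F 0 N ≤ s * V := by
    intro s V y hs h1 h2
    have h3 := abs_lt.mp (hsab s _ _ hs h2)
    have h4 : κ / 2 ≤ s * (V / F 0 t) := by linarith [h3.1]
    rw [← mul_div_assoc, le_div_iff₀ g1'] at h4
    calc κ / 2 / W * F 0 N ≤ κ / 2 / W * (W * F 0 t) := by gcongr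
      _ = κ / 2 * F 0 t := by field_simp
      _ ≤ _ := h4
  have hlow' : ∀ (s V y : ℝ), (s = 1 ∨ s = -1) → s * y ≤ -κ → |V / F 0 t - y| < κ / 2 →
      s * V ≤ -(κ / 2 / W * F 0 N) := by
    intro s V y hs h1 h2
    have h3 := hlow (-s) V y (by rcases hs with h | h <;> simp [h]) (by linarith) h2
    linarith
  refine ⟨g1, a6, ?_, ?_, ?_, ?_, ?_⟩
  · intro m h1 h2
    have h4 : m = Q + 1 ∨ m = Q + 2 ∨ m = Q + 3 := by omega
    rcases h4 with rfl | rfl | rfl
    · exact habs _ a1 (by rw [hK]; linarith [abs_nonneg f2, abs_nonneg f3])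
    · exact habs _ a2 (by rw [hK]; linarith [abs_nonneg f1, abs_nonneg f3])
    · exact habs _ a3 (by rw [hK]; linarith [abs_nonneg f1, abs_nonneg f2])
  · exact hlow σ _ f1 hσ (by rw [hσ1]; exact k1) a1
  · refine hlow τ _ (c * f1) hτ (by rw [hτ1]; exact k3) ?_
    convert a4 using 3
    ring
  · exact hlow' σ _ f2 hσ (by rw [hσ2]; linarith) a2
  · refine hlow' τ _ (c * f2) hτ (by rw [hτ2]; linarith) ?_
    convert a5 using 3
    ring

end Pool.Agent.N542.PQ
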