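import Pool.Agent.N542.PQ.Phases

set_option autoImplicit false
set_option maxHeartbeats 4000000

/-! The sums of type II. -/

namespace Pool.Agent.N542.PQ

open Finset
open Pool.Agent.H469R2.NK (e norm_e e_add conj_e norm_sum_neg e_zero)
open Pool.Agent.H373R2.T3 (bilin sum_inv_dist)
open Pool.Agent.TH915.PW (Hy)

/-- the property given by `vdc_all` -/
def Blk (Q : ℕ) (c₁ c₂ δ η C : ℝ) : Prop :=
  ∀ (N L : ℕ) (u F σ : ℝ) (φ : ℕ → ℝ → ℝ),
      1 ≤ N → L ≤ N → (N : ℝ) ^ δ ≤ F → F ≤ (N : ℝ) ^ Q → (σ = 1 ∨ σ = -1) →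
      Hy Q u (u + L) (c₁ * F / (N : ℝ) ^ (Q + 1)) (c₂ * F / (N : ℝ) ^ (Q + 1))
        (fun m t => σ * φ m t) →
      ‖∑ n ∈ range L, e (φ 0 (u + n))‖ ≤ C * (N : ℝ) ^ (1 - η)

variable {Q : ℕ} {Φ c₁ c₂ σ τ δ η C : ℝ} {G : ℕ → ℝ → ℝ} {N : ℕ}

lemma offdiag (h : PD Q N Φ c₁ c₂ σ τ G) (hN : 1 ≤ N) (hτ : τ = 1 ∨ τ = -1) (hc₁ : 0 < c₁)
    (hc₂ : c₁ ≤ c₂) (hΦ : 0 < Φ) (hC : 1 ≤ C)
    (hblk : Blk Q (c₁ / (2 * 3 ^ (Q + 1))) c₂ δ η C) (N' M L l l' : ℕ) (hNN : N' ≤ 2 * N)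
    (hM : 1 ≤ M) (hL : 1 ≤ L) (hl : L < l ∧ l ≤ 2 * L) (hl' : L < l' ∧ l' ≤ 2 * L) (hll : l' < l)
    (hcond : Φ ≤ (M : ℝ) ^ Q) (hfar : (M : ℝ) ^ δ ≤ Φ * (((l : ℝ) - l') / L)) :
    ‖∑ m ∈ Ioc (max M (max (N / l) (N / l'))) (min (2 * M) (min (N' / l) (N' / l'))),
      e (G 0 (l * m) - G 0 (l' * m))‖ ≤ C * (M : ℝ) ^ (1 - η) := by
  set a := max M (max (N / l) (N / l')) with ha
  set b := min (2 * M) (min (N' / l) (N' / l')) with hb
  have hM0 : (1 : ℝ) ≤ M := by exact_mod_cast hM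
  have hL0 : (0 : ℝ) < L := by exact_mod_cast hL
  have hN1 : (1 : ℝ) ≤ N := by exact_mod_cast hN
  have hllr : (l' : ℝ) < l := by exact_mod_cast hll
  rcases Nat.lt_or_ge a b with hab | hab
  · have hMa : M ≤ a := le_max_left _ _
    have hNla : N / l' ≤ a := (le_max_right _ _).trans (le_max_right _ _)
    have hbM : b ≤ 2 * M := min_le_left _ _
    have hbl : b ≤ N' / l := (min_le_right _ _).trans (min_le_left _ _)
    have hl0 : 0 < l := by omega
    have hl0' : 0 < l' := by omega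
    have hlb : l * b ≤ N' := by
      rw [mul_comm]
      exact (Nat.le_div_iff_mul_le hl0).mp hbl
    have hNa : N < l' * (a + 1) := by
      have := (Nat.div_lt_iff_lt_mul hl0').mp (lt_of_le_of_lt hNla (Nat.lt_succ_self a))
      rwa [mul_comm] at this
    have hlN : l ≤ N := by
      have h1 : 2 ≤ b := by omega
      have h2 : l * 2 ≤ l * b := Nat.mul_le_mul_left _ h1
      omega
    set D : ℝ := ((l : ℝ) - l') / L with hD
    have hd : 0 < (l : ℝ) - l' := by linarith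
    have hD0 : 0 < D := by positivity
    have hD1 : D ≤ 1 := by
      rw [hD, div_le_one hL0]
      have h1 : (l : ℝ) ≤ 2 * L := by exact_mod_cast hl.2
      have h2 : (L : ℝ) ≤ l' := by exact_mod_cast hl'.1.le
      linarith
    set K : ℕ := b - a with hK
    have hKb : ((a + 1 : ℕ) : ℝ) + (K : ℝ) = b + 1 := by
      rw [hK, Nat.cast_sub hab.le]
      push_cast
      ring
    have hP := hyII h (by linarith) hc₁ hc₂ hΦ M ((a + 1 : ℕ) : ℝ) (((a + 1 : ℕ) : ℝ) + K) L l l'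
      (by linarith) (by exact_mod_cast (by omega : M ≤ a + 1))
      (by
        have : (0 : ℝ) ≤ K := Nat.cast_nonneg K
        linarith)
      (by
        rw [hKb]
        have h1 : (b : ℝ) ≤ 2 * M := by exact_mod_cast hbM
        linarith) hL hl.2 hl'.1.le hll (by exact_mod_cast hNa.le)
      (by
        rw [hKb]
        have h1 : l * (b + 1) ≤ 4 * N := by nlinarith
        exact_mod_cast h1)
    have h1 := hblk M K ((a + 1 : ℕ) : ℝ) (Φ * D) τ _ hM (by omega) hfar (by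
      calc Φ * D ≤ Φ * 1 := by gcongr
        _ ≤ _ := by rw [mul_one]; exact hcond) hτ hP
    have e1 : ∑ m ∈ Ioc a b, e (G 0 (l * m) - G 0 (l' * m)) =
        ∑ n ∈ range K, e ((fun j x => ((l : ℝ) ^ j * G j (l * x)) -
          ((l' : ℝ) ^ j * G j (l' * x)) : ℕ → ℝ → ℝ) 0 (((a + 1 : ℕ) : ℝ) + n)) := by
      have e2 : Ioc a b = Ico (a + 1) (b + 1) := by
        ext x; simp only [mem_Ioc, mem_Ico]; omega
      rw [e2, Finset.sum_Ico_eq_sum_range, show b + 1 - (a + 1) = K by omega]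
      refine sum_congr rfl fun n _ => ?_
      simp only [pow_zero, one_mul]
      push_cast
      rfl
    rw [e1]
    exact h1
  · rw [Ioc_eq_empty (by omega), sum_empty, norm_zero]
    positivity

/-- the number of points near `l` -/
lemma near_card (L l : ℕ) (ρ : ℝ) (hρ : 0 ≤ ρ) :
    ((((Ioc L (2 * L)).filter (fun l' : ℕ => |(l : ℝ) - l'| < ρ)).card : ℕ) : ℝ) ≤ 2 * ρ + 1 := by
  have hsub : (Ioc L (2 * L)).filter (fun l' : ℕ => |(l : ℝ) - l'| < ρ) ⊆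
      Icc (l - ⌊ρ⌋₊) (l + ⌊ρ⌋₊) := by
    intro l' hl'
    rw [mem_filter] at hl'
    obtain ⟨h1, h2⟩ := abs_lt.mp hl'.2
    rw [mem_Icc]
    constructor
    · rw [Nat.sub_le_iff_le_add]
      by_contra hc
      rw [not_le] at hc
      have h3 : ((l - l' : ℕ) : ℝ) ≤ ρ := by
        rw [Nat.cast_sub (by omega)]
        linarith
      have h4 : l - l' ≤ ⌊ρ⌋₊ := Nat.le_floor h3
      omega
    · by_contra hc
      rw [not_le] at hc
      have h3 : ((l' - l : ℕ) : ℝ) ≤ ρ := by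
        rw [Nat.cast_sub (by omega)]
        linarith
      have h4 : l' - l ≤ ⌊ρ⌋₊ := Nat.le_floor h3
      omega
  have h1 := card_le_card hsub
  rw [Nat.card_Icc] at h1
  have h2 : ((⌊ρ⌋₊ : ℕ) : ℝ) ≤ ρ := Nat.floor_le hρ
  have h3 : ((Ioc L (2 * L)).filter (fun l' : ℕ => |(l : ℝ) - l'| < ρ)).card ≤ 2 * ⌊ρ⌋₊ + 1 := by
    omega
  have h4 : ((((Ioc L (2 * L)).filter (fun l' : ℕ => |(l : ℝ) - l'| < ρ)).card : ℕ) : ℝ) ≤
      2 * (⌊ρ⌋₊ : ℝ) + 1 := by exact_mod_cast h3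
  linarith

theorem typeII (h : PD Q N Φ c₁ c₂ σ τ G) (hN : 1 ≤ N) (hτ : τ = 1 ∨ τ = -1) (hc₁ : 0 < c₁)
    (hc₂ : c₁ ≤ c₂) (hΦ : 0 < Φ) (hC : 1 ≤ C)
    (hblk : Blk Q (c₁ / (2 * 3 ^ (Q + 1))) c₂ δ η C) (N' M L : ℕ) (hNN : N' ≤ 2 * N)
    (hM : 1 ≤ M) (hL : 1 ≤ L) (w : ℝ) (hw : 0 ≤ w)
    (hcond : Φ ≤ (M : ℝ) ^ Q) (hfar : (M : ℝ) ^ δ ≤ Φ * w) (a b : ℕ → ℂ) :
    ‖∑ m ∈ Ioc M (2 * M), ∑ l ∈ Ioc L (2 * L), a m * b l * (if N < m * l ∧ m * l ≤ N' then
      e (G 0 ((m * l : ℕ) : ℝ)) else 0)‖ ^ 2 ≤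
      (∑ m ∈ Ioc M (2 * M), ‖a m‖ ^ 2) * ((∑ l ∈ Ioc L (2 * L), ‖b l‖ ^ 2) *
        (M * (2 * (L * w) + 1) + L * (C * (M : ℝ) ^ (1 - η)))) := by
  classical
  set g : ℕ → ℕ → ℂ := fun m l => if N < m * l ∧ m * l ≤ N' then
    e (G 0 ((m * l : ℕ) : ℝ)) else 0 with hg
  set Tt : ℝ := M * (2 * (L * w) + 1) + L * (C * (M : ℝ) ^ (1 - η)) with hTt
  have hM0 : (0 : ℝ) < M := by exact_mod_cast hM
  have hL0 : (0 : ℝ) < L := by exact_mod_cast hL
  have hgg : ∀ m l l', g m l * (starRingEnd ℂ) (g m l') =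
      if (N < m * l ∧ m * l ≤ N') ∧ (N < m * l' ∧ m * l' ≤ N') then
      e (G 0 (l * m) - G 0 (l' * m)) else 0 := by
    intro m l l'
    simp only [hg]
    by_cases h2 : N < m * l ∧ m * l ≤ N'
    · by_cases h3 : N < m * l' ∧ m * l' ≤ N'
      · rw [if_pos h2, if_pos h3, if_pos ⟨h2, h3⟩, conj_e, ← e_add]
        congr 1
        push_cast
        rw [mul_comm (m : ℝ) (l : ℝ), mul_comm (m : ℝ) (l' : ℝ)]
        ring
      · rw [if_neg h3, map_zero, mul_zero, if_neg (fun h => h3 h.2)]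
    · rw [if_neg h2, zero_mul, if_neg (fun h => h2 h.1)]
  have hset : ∀ l l', 0 < l → 0 < l' → ∑ m ∈ Ioc M (2 * M), g m l * (starRingEnd ℂ) (g m l') =
      ∑ m ∈ Ioc (max M (max (N / l) (N / l'))) (min (2 * M) (min (N' / l) (N' / l'))),
        e (G 0 (l * m) - G 0 (l' * m)) := by
    intro l l' hl0 hl0'
    rw [sum_congr rfl (fun m _ => hgg m l l'), ← sum_filter]
    apply sum_congr _ fun _ _ => rfl
    ext m
    simp only [mem_filter, mem_Ioc, max_lt_iff, le_min_iff]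
    rw [Nat.div_lt_iff_lt_mul hl0, Nat.div_lt_iff_lt_mul hl0', Nat.le_div_iff_mul_le hl0,
      Nat.le_div_iff_mul_le hl0']
    tauto
  have htriv : ∀ l l', ‖∑ m ∈ Ioc M (2 * M), g m l * (starRingEnd ℂ) (g m l')‖ ≤ M := by
    intro l l'
    refine (norm_sum_le _ _).trans ?_
    calc ∑ m ∈ Ioc M (2 * M), ‖g m l * (starRingEnd ℂ) (g m l')‖ ≤
        ∑ _m ∈ Ioc M (2 * M), (1 : ℝ) := by
          apply sum_le_sum; intro m hm
          rw [hgg m l l']
          split_ifs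
          · rw [norm_e]
          · rw [norm_zero]; norm_num
      _ = M := by
          rw [sum_const, Nat.card_Ioc, nsmul_eq_mul, mul_one]
          congr 1; omega
  have hTj : ∀ l ∈ Ioc L (2 * L), ∑ l' ∈ Ioc L (2 * L),
      ‖∑ m ∈ Ioc M (2 * M), g m l * (starRingEnd ℂ) (g m l')‖ ≤ Tt := by
    intro l hl
    have hlm := mem_Ioc.1 hl
    have hl0 : 0 < l := by omega
    have hoff : ∀ l' ∈ (Ioc L (2 * L)).filter (fun l' : ℕ => ¬ |(l : ℝ) - l'| < L * w),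
        ‖∑ m ∈ Ioc M (2 * M), g m l * (starRingEnd ℂ) (g m l')‖ ≤ C * (M : ℝ) ^ (1 - η) := by
      intro l' hl'
      rw [mem_filter, not_lt] at hl'
      have hlm' := mem_Ioc.1 hl'.1
      have hl0' : 0 < l' := by omega
      have hw0 : 0 < w := by
        rcases hw.lt_or_eq with h1 | h1
        · exact h1
        · rw [← h1, mul_zero] at hfar
          have : 0 < (M : ℝ) ^ δ := by positivity
          linarith
      have hwle : w ≤ |(l : ℝ) - l'| / L := by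
        rw [le_div_iff₀ hL0]
        linarith [hl'.2]
      have hne : l ≠ l' := by
        intro h1
        rw [h1, sub_self, abs_zero] at hl'
        have : 0 < (L : ℝ) * w := by positivity
        linarith [hl'.2]
      rcases lt_or_gt_of_ne hne with h1 | h1
      · have h1r : (l : ℝ) < l' := by exact_mod_cast h1
        rw [abs_sub_comm, abs_of_pos (by linarith)] at hwle
        have h2 := offdiag h hN hτ hc₁ hc₂ hΦ hC hblk N' M L l' l hNN hM hL hlm' hlm h1 hcond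
          (hfar.trans (by gcongr))
        rw [← hset l' l hl0' hl0] at h2
        have h3 : ∑ m ∈ Ioc M (2 * M), g m l * (starRingEnd ℂ) (g m l') =
            (starRingEnd ℂ) (∑ m ∈ Ioc M (2 * M), g m l' * (starRingEnd ℂ) (g m l)) := by
          rw [map_sum]
          refine sum_congr rfl fun m _ => ?_
          rw [map_mul, Complex.conj_conj, mul_comm]
        rw [h3, Complex.norm_conj]
        exact h2
      · have h1r : (l' : ℝ) < l := by exact_mod_cast h1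
        rw [abs_of_pos (by linarith)] at hwle
        rw [hset l l' hl0 hl0']
        exact offdiag h hN hτ hc₁ hc₂ hΦ hC hblk N' M L l l' hNN hM hL hlm hlm' h1 hcond
          (hfar.trans (by gcongr))
    rw [← sum_filter_add_sum_filter_not (Ioc L (2 * L)) (fun l' : ℕ => |(l : ℝ) - l'| < L * w)]
    have hnear := near_card L l (L * w) (by positivity)
    have hfarc : ((((Ioc L (2 * L)).filter (fun l' : ℕ => ¬ |(l : ℝ) - l'| < L * w)).card : ℕ) : ℝ)
        ≤ L := by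
      have h1 : ((Ioc L (2 * L)).filter (fun l' : ℕ => ¬ |(l : ℝ) - l'| < L * w)).card ≤
          (Ioc L (2 * L)).card := card_le_card (filter_subset _ _)
      rw [Nat.card_Ioc] at h1
      exact_mod_cast (by omega :
        ((Ioc L (2 * L)).filter (fun l' : ℕ => ¬ |(l : ℝ) - l'| < L * w)).card ≤ L)
    have hMq : 0 ≤ (M : ℝ) ^ (1 - η) := by positivity
    have s1 : ∑ l' ∈ (Ioc L (2 * L)).filter (fun l' : ℕ => |(l : ℝ) - l'| < L * w),
        ‖∑ m ∈ Ioc M (2 * M), g m l * (starRingEnd ℂ) (g m l')‖ ≤ (2 * (L * w) + 1) * M := by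
      calc _ ≤ ∑ _l' ∈ (Ioc L (2 * L)).filter (fun l' : ℕ => |(l : ℝ) - l'| < L * w), (M : ℝ) :=
            sum_le_sum fun l' _ => htriv l l'
        _ = (((Ioc L (2 * L)).filter (fun l' : ℕ => |(l : ℝ) - l'| < L * w)).card : ℝ) * M := by
            rw [sum_const, nsmul_eq_mul]
        _ ≤ _ := by gcongr
    have s2 : ∑ l' ∈ (Ioc L (2 * L)).filter (fun l' : ℕ => ¬ |(l : ℝ) - l'| < L * w),
        ‖∑ m ∈ Ioc M (2 * M), g m l * (starRingEnd ℂ) (g m l')‖ ≤ L * (C * (M : ℝ) ^ (1 - η)) := by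
      calc _ ≤ ∑ _l' ∈ (Ioc L (2 * L)).filter (fun l' : ℕ => ¬ |(l : ℝ) - l'| < L * w),
            (C * (M : ℝ) ^ (1 - η)) := sum_le_sum hoff
        _ = (((Ioc L (2 * L)).filter (fun l' : ℕ => ¬ |(l : ℝ) - l'| < L * w)).card : ℝ) *
            (C * (M : ℝ) ^ (1 - η)) := by rw [sum_const, nsmul_eq_mul]
        _ ≤ _ := by gcongr
    rw [hTt]
    linarith
  exact bilin _ _ a b g Tt hTj

end Pool.Agent.N542.PQ
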