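import Pool.Agent.N542.PP.Van

set_option autoImplicit false
set_option maxHeartbeats 4000000

/-! A power saving in all ranges, with one order of differencing. -/

namespace Pool.Agent.N542.PQ

open Finset
open Pool.Agent.H469R2.NK (e norm_e e_add conj_e norm_sum_neg Cq Cq_pos harm_le)
open Pool.Agent.TH915.PW (Hy)
open Pool.Agent.N542.PP (exp_bound_avg vdc_high)

/-- the range of small phases -/
theorem vdc_low (Q : ℕ) (hQ : 1 ≤ Q) (c₁ c₂ δ : ℝ) (hc₁ : 0 < c₁) (hc₂ : c₁ ≤ c₂) (hδ : 0 < δ)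
    (hδ1 : δ ≤ 1 / 2) :
    ∃ η : ℝ, 0 < η ∧ η ≤ 1 ∧ ∃ C : ℝ, 1 ≤ C ∧ ∀ (N L : ℕ) (u F : ℝ) (φ : ℕ → ℝ → ℝ),
      1 ≤ N → L ≤ N → (N : ℝ) ^ δ ≤ F → F ≤ (N : ℝ) ^ (1 / 2 : ℝ) →
      Hy Q u (u + L) (c₁ * F / (N : ℝ) ^ (Q + 1)) (c₂ * F / (N : ℝ) ^ (Q + 1)) φ →
      ‖∑ n ∈ range L, e (φ 0 (u + n))‖ ≤ C * (N : ℝ) ^ (1 - η) := by
  have hQ' : (1 : ℝ) ≤ Q := by exact_mod_cast hQ
  have hCq := Cq_pos Q
  have hc₂0 : 0 < c₂ := by linarith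
  set η : ℝ := δ / 2 / 2 ^ Q with hη
  have h2Q : (1 : ℝ) ≤ 2 ^ Q := one_le_pow₀ (by norm_num)
  have hη0 : 0 < η := by positivity
  have hη1 : η ≤ 1 := by
    rw [hη]
    exact (div_le_self (by positivity) h2Q).trans (by linarith)
  set w : ℝ := δ / (2 * Q) with hw
  have hw0 : 0 < w := by positivity
  set K : ℝ := Cq Q * (1 + 2 / c₁ * (1 + 1 / w) ^ Q) with hK
  have hK0 : 0 < K := by positivity
  set C : ℝ := max (4 * c₂ ^ 2 + 1) (K ^ ((1 : ℝ) / 2 ^ Q)) with hC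
  have hC1 : 4 * c₂ ^ 2 + 1 ≤ C := le_max_left _ _
  have hCK : K ^ ((1 : ℝ) / 2 ^ Q) ≤ C := le_max_right _ _
  refine ⟨η, hη0, hη1, C, by nlinarith [sq_nonneg c₂], ?_⟩
  intro N L u F φ hN hL hF1 hF2 hHy
  have hN' : (1 : ℝ) ≤ N := by exact_mod_cast hN
  have hNpos : (0 : ℝ) < N := by linarith
  have hF0 : 0 < F := lt_of_lt_of_le (by positivity) hF1
  set S : ℝ := ‖∑ n ∈ range L, e (φ 0 (u + n))‖ with hS
  have hS0 : 0 ≤ S := norm_nonneg _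
  have htriv : S ≤ N := by
    rw [hS]
    refine (norm_sum_le _ _).trans ?_
    simp only [norm_e, sum_const, card_range, nsmul_eq_mul, mul_one]
    exact_mod_cast hL
  rcases lt_or_ge (N : ℝ) (4 * c₂ ^ 2) with hsmall | hbig
  · refine htriv.trans ?_
    calc (N : ℝ) ≤ (4 * c₂ ^ 2 + 1) * 1 := by linarith
      _ ≤ C * (N : ℝ) ^ (1 - η) := by
        gcongr
        exact Real.one_le_rpow hN' (by linarith)
  have hsq : 2 * c₂ ≤ (N : ℝ) ^ (1 / 2 : ℝ) := by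
    rw [← Real.sqrt_eq_rpow]
    apply Real.le_sqrt_of_sq_le
    linarith
  have hcond : 2 * (1 * (c₂ * F / (N : ℝ) ^ (Q + 1) * (N : ℝ) ^ Q)) ≤ 1 := by
    have e2 : 2 * (1 * (c₂ * F / (N : ℝ) ^ (Q + 1) * (N : ℝ) ^ Q)) = 2 * c₂ * F / N := by
      rw [pow_succ]
      field_simp
    rw [e2, div_le_one hNpos]
    calc 2 * c₂ * F ≤ (N : ℝ) ^ (1 / 2 : ℝ) * (N : ℝ) ^ (1 / 2 : ℝ) := by gcongr
      _ = N := by rw [← Real.rpow_add hNpos]; norm_num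
  have hb := exp_bound_avg (θ := 1) (by positivity) (by positivity) one_pos hHy u N L N hN hL
    le_rfl le_rfl hN le_rfl hcond
  simp only [one_mul] at hb
  rw [← hS] at hb
  have hlog : 1 + Real.log N ≤ (1 + 1 / w) * (N : ℝ) ^ w := by
    have h2 := Real.log_le_rpow_div (x := N) (ε := w) (by positivity) hw0
    have h4 : (1 : ℝ) ≤ (N : ℝ) ^ w := Real.one_le_rpow hN' hw0.le
    have h5 : (N : ℝ) ^ w / w = 1 / w * (N : ℝ) ^ w := by ring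
    rw [h5] at h2
    linarith
  have hwQ : ((N : ℝ) ^ w) ^ Q = (N : ℝ) ^ (δ / 2) := by
    rw [← Real.rpow_natCast, ← Real.rpow_mul hNpos.le]
    congr 1
    rw [hw]
    field_simp
  have hterm2 : 2 / (c₁ * F / (N : ℝ) ^ (Q + 1)) / N * ((∑ l ∈ Ico 1 N, (1 : ℝ) / l) / N) ^ Q ≤
      2 / c₁ * (1 + 1 / w) ^ Q * (N : ℝ) ^ (-(δ / 2)) := by
    have hs0 : 0 ≤ ∑ l ∈ Ico 1 N, (1 : ℝ) / l := sum_nonneg fun _ _ => by positivity
    have h1 : (∑ l ∈ Ico 1 N, (1 : ℝ) / l) ^ Q ≤ (1 + 1 / w) ^ Q * (N : ℝ) ^ (δ / 2) := by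
      rw [← hwQ, ← mul_pow]
      exact pow_le_pow_left₀ hs0 ((harm_le N).trans hlog) Q
    have e1 : 2 / (c₁ * F / (N : ℝ) ^ (Q + 1)) / N * ((∑ l ∈ Ico 1 N, (1 : ℝ) / l) / N) ^ Q =
        2 / c₁ * (∑ l ∈ Ico 1 N, (1 : ℝ) / l) ^ Q * (1 / F) := by
      rw [div_pow, pow_succ (N : ℝ) Q]
      field_simp
    rw [e1]
    have h2 : 1 / F ≤ (N : ℝ) ^ (-δ) := by
      rw [Real.rpow_neg hNpos.le, ← one_div]
      gcongr
    calc 2 / c₁ * (∑ l ∈ Ico 1 N, (1 : ℝ) / l) ^ Q * (1 / F)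
        ≤ 2 / c₁ * ((1 + 1 / w) ^ Q * (N : ℝ) ^ (δ / 2)) * (N : ℝ) ^ (-δ) := by gcongr
      _ = 2 / c₁ * (1 + 1 / w) ^ Q * ((N : ℝ) ^ (δ / 2) * (N : ℝ) ^ (-δ)) := by ring
      _ = _ := by
        rw [← Real.rpow_add hNpos]
        congr 2
        ring
  have hterm1 : 1 / (N : ℝ) ≤ (N : ℝ) ^ (-(δ / 2)) := by
    have : 1 / (N : ℝ) = (N : ℝ) ^ (-1 : ℝ) := by rw [Real.rpow_neg_one, one_div]
    rw [this]
    exact Real.rpow_le_rpow_of_exponent_le hN' (by linarith)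
  have hfin : (S / N) ^ (2 ^ Q) ≤ K * (N : ℝ) ^ (-(δ / 2)) := by
    refine hb.trans ?_
    calc _ ≤ Cq Q * ((N : ℝ) ^ (-(δ / 2)) + 2 / c₁ * (1 + 1 / w) ^ Q * (N : ℝ) ^ (-(δ / 2))) := by
          gcongr
      _ = _ := by rw [hK]; ring
  have hroot : S / N ≤ K ^ ((1 : ℝ) / 2 ^ Q) * (N : ℝ) ^ (-η) := by
    have h1 : (S / N) = ((S / N) ^ (2 ^ Q)) ^ ((1 : ℝ) / 2 ^ Q) := by
      rw [← Real.rpow_natCast, ← Real.rpow_mul (by positivity)]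
      push_cast
      rw [mul_one_div_cancel (by positivity), Real.rpow_one]
    rw [h1]
    calc _ ≤ (K * (N : ℝ) ^ (-(δ / 2))) ^ ((1 : ℝ) / 2 ^ Q) := by gcongr
      _ = K ^ ((1 : ℝ) / 2 ^ Q) * (N : ℝ) ^ (-(δ / 2) * (1 / 2 ^ Q)) := by
          rw [Real.mul_rpow hK0.le (by positivity), ← Real.rpow_mul (by positivity)]
      _ = _ := by
          congr 2
          rw [hη]
          ring
  rw [div_le_iff₀ hNpos] at hroot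
  calc S ≤ K ^ ((1 : ℝ) / 2 ^ Q) * (N : ℝ) ^ (-η) * N := hroot
    _ ≤ C * (N : ℝ) ^ (-η) * N := by gcongr
    _ = _ := by
      rw [mul_assoc, sub_eq_neg_add, Real.rpow_add hNpos, Real.rpow_one]

/-- a power saving in all ranges -/
theorem vdc_all (Q : ℕ) (hQ : 1 ≤ Q) (c₁ c₂ δ : ℝ) (hc₁ : 0 < c₁) (hc₂ : c₁ ≤ c₂) (hδ : 0 < δ)
    (hδ1 : δ ≤ 1 / 2) :
    ∃ η : ℝ, 0 < η ∧ η ≤ 1 ∧ ∃ C : ℝ, 1 ≤ C ∧ ∀ (N L : ℕ) (u F σ : ℝ) (φ : ℕ → ℝ → ℝ),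
      1 ≤ N → L ≤ N → (N : ℝ) ^ δ ≤ F → F ≤ (N : ℝ) ^ Q → (σ = 1 ∨ σ = -1) →
      Hy Q u (u + L) (c₁ * F / (N : ℝ) ^ (Q + 1)) (c₂ * F / (N : ℝ) ^ (Q + 1))
        (fun m t => σ * φ m t) →
      ‖∑ n ∈ range L, e (φ 0 (u + n))‖ ≤ C * (N : ℝ) ^ (1 - η) := by
  obtain ⟨η₁, a1, a2, C₁, a3, h1⟩ := vdc_low Q hQ c₁ c₂ δ hc₁ hc₂ hδ hδ1
  obtain ⟨η₂, b1, b2, C₂, b3, h2⟩ := vdc_high Q hQ c₁ c₂ hc₁ hc₂
  refine ⟨min η₁ η₂, lt_min a1 b1, (min_le_left _ _).trans a2, max C₁ C₂,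
    a3.trans (le_max_left _ _), ?_⟩
  intro N L u F σ φ hN hL hF1 hF2 hσ hHy
  have hN' : (1 : ℝ) ≤ N := by exact_mod_cast hN
  have key : ‖∑ n ∈ range L, e ((fun m t => σ * φ m t : ℕ → ℝ → ℝ) 0 (u + n))‖ ≤
      max C₁ C₂ * (N : ℝ) ^ (1 - min η₁ η₂) := by
    rcases le_or_gt F ((N : ℝ) ^ (1 / 2 : ℝ)) with hc | hc
    · refine (h1 N L u F _ hN hL hF1 hc hHy).trans ?_
      apply mul_le_mul (le_max_left _ _) _ (by positivity) (by positivity)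
      exact Real.rpow_le_rpow_of_exponent_le hN' (by linarith [min_le_left η₁ η₂])
    · refine (h2 N L u F _ hN hL hc.le hF2 hHy).trans ?_
      apply mul_le_mul (le_max_right _ _) _ (by positivity) (by positivity)
      exact Real.rpow_le_rpow_of_exponent_le hN' (by linarith [min_le_right η₁ η₂])
  rcases hσ with hσ | hσ
  · simpa only [hσ, one_mul] using key
  · rw [hσ] at key
    simp only [neg_mul, one_mul] at key
    rwa [norm_sum_neg (fun n => φ 0 (u + n)) L] at key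

end Pool.Agent.N542.PQ
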